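import Pool.Agent.helper17.NS.PieceS
import Pool.Agent.helper71.FG.Far50x

/-!
# The far field data of the pieces, `20 ≤ e ≤ 50`
-/

namespace Pool.Agent.helper4.NS

open Pool.Agent.helper12.RS
open Pool.Agent.helper71.FG

/-- the far field data for `20 ≤ e ≤ 50` -/
theorem farX50 {e κ : ℝ} (h20 : 20 ≤ e) (h50 : e ≤ 50) (hκ : 0 < κ)
    (hk : kfun e κ < 4 ^ (1 / e) - 1) : FarX e κ (Ag e κ) := fun _ hx =>
  ⟨far50x h20 h50 hκ hk hx, far50x_X h20 h50 hκ hk hx, far50x_Ω h20 h50 hκ hk hx⟩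

end Pool.Agent.helper4.NS
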