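import Pool.Agent.helper17.NS.RegionS
import Pool.Agent.helper4.NS.SpecMid
import Pool.Agent.helper20.NS.LastP
import Pool.Agent.helper38.NS.SpecP0
import Pool.Agent.helper63.NF.NearF

/-!
# The near field facts from the certificates, state `T/ε`
-/

namespace Pool.Agent.helper4.NS

open Complex
open Pool.Agent.helper31.IA (Z get InBox)
open Pool.Agent.helper31.IX (Op Asserts CovD)
open Pool.Agent.helper12.RS
open Pool.Agent.helper63.NF
open Pool.Agent.helper63.RG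

/-- in strips the cut contains the corner -/
def cutOkS (t : TD) (N0 : ℕ) : Bool :=
  !t.strip || (List.range N0).all fun n => decide (t.s1 * t.s1 ≤ nth 0 t.y n * 1099511627776)

variable {t : TD} {N0 : ℕ} {ve : ℤ} {be bb bA bB bC bD bv : ℕ × ℕ} {e κ s' v1 : ℝ} {n : ℕ}

theorem cutOkS_of (h : cutOkS t N0 = true) (hs : t.strip = true) (hn : n < N0) :
    rv t.s1 ^ 2 ≤ rv (nth 0 t.y n) := by
  unfold cutOkS at h
  rw [hs] at h
  simp only [Bool.not_true, Bool.false_or, List.all_eq_true, decide_eq_true_eq] at h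
  have h1 := h n (List.mem_range.2 hn)
  have h2 : ((t.s1 * t.s1 : ℤ) : ℝ) ≤ ((nth 0 t.y n * 1099511627776 : ℤ) : ℝ) := by exact_mod_cast h1
  unfold rv
  rw [div_pow, div_le_div_iff₀ (by positivity) (by positivity)]
  push_cast at h2
  nlinarith

theorem dS_strip (hs : t.strip = true) (n : ℕ) (e κ : ℝ) : t.δ n e κ = dS t n e κ := by
  unfold TD.δ dS TD.dK
  rw [hs, cond_true]

theorem RS_strip (hs : t.strip = true) (n : ℕ) (e κ : ℝ) : t.RR n e κ = RS t n e κ := by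
  unfold TD.RR RS TD.dK
  rw [hs, cond_true]

/-- the parameter of the starts -/
theorem iv_eta (he : 0 < e) (η : ℝ) :
    Tb.iv e κ ((η : ℂ) * I) = I * (Tab.vv e κ (Tb.gR e) η : ℂ) := by
  have hg := Tb.gR_pos e
  obtain ⟨g, hgg⟩ : ∃ g, g = Tb.gR e := ⟨_, rfl⟩
  rw [← hgg] at hg
  obtain ⟨v, hv⟩ : ∃ v, v = Tab.vv e κ g η := ⟨_, rfl⟩
  have hd : 0 < 1 + (3 / 2) * Real.sinh (κ / 2) ^ 2 := by positivity
  have hvr : Real.sinh (κ / 2) * Real.tan (κ * η) =
      v * (1 / e * g * (1 + (3 / 2) * Real.sinh (κ / 2) ^ 2)) := by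
    rw [hv]
    unfold Tab.vv
    field_simp
  have hth : tanh (κ * ((η : ℂ) * I)) = (Real.tan (κ * η) : ℂ) * I := tanh_I κ η
  have h5 : (Real.sinh (κ / 2) : ℂ) * (Real.tan (κ * η) : ℂ) =
      v * (((1 / e : ℝ) : ℂ) * g * (1 + (3 / 2) * (Real.sinh (κ / 2) : ℂ) ^ 2)) := by
    have := congrArg (fun x : ℝ => (x : ℂ)) hvr
    simp only [ofReal_mul, ofReal_add, ofReal_pow, ofReal_one, ofReal_div, ofReal_ofNat] at this ⊢
    exact this
  unfold Tb.iv
  rw [hth, ← hgg, ← hv]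
  have h2 : ((1 / e : ℝ) : ℂ) * g * (1 + (3 / 2) * (Real.sinh (κ / 2) : ℂ) ^ 2) ≠ 0 := by
    have : ((1 / e * g * (1 + (3 / 2) * Real.sinh (κ / 2) ^ 2) : ℝ) : ℂ) ≠ 0 := by
      exact_mod_cast (show 1 / e * g * (1 + (3 / 2) * Real.sinh (κ / 2) ^ 2) ≠ 0 by positivity)
    simp only [ofReal_mul, ofReal_add, ofReal_pow, ofReal_one, ofReal_div, ofReal_ofNat] at this ⊢
    exact this
  rw [div_eq_iff h2]
  linear_combination I * h5

theorem vv_nonneg (he : 0 < e) (hκ : 0 < κ) {η : ℝ} (h0 : 0 ≤ η) (h1 : |κ * η| < Real.pi / 2) :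
    0 ≤ Tab.vv e κ (Tb.gR e) η := by
  have hg := Tb.gR_pos e
  have hs := Real.sinh_pos_iff.2 (show 0 < κ / 2 by linarith)
  have h2 : 0 ≤ κ * η := by positivity
  rw [abs_of_nonneg h2] at h1
  have ht : 0 ≤ Real.tan (κ * η) := Real.tan_nonneg_of_nonneg_of_le_pi_div_two h2 h1.le
  unfold Tab.vv
  positivity

theorem cosh_eta {η : ℝ} (h1 : |κ * η| < Real.pi / 2) : cosh (κ * ((η : ℂ) * I)) ≠ 0 := by
  have h2 : (κ : ℂ) * ((η : ℂ) * I) = ((κ * η : ℝ) : ℂ) * I := by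
    push_cast
    ring
  rw [h2, Complex.cosh_mul_I, ← Complex.ofReal_cos]
  have := Real.cos_pos_of_mem_Ioo (abs_lt.1 h1)
  exact_mod_cast this.ne'

theorem PSn_mid (h : n + 1 < N0) : PSn t N0 n = PSm t n := by
  unfold PSn
  have : Nat.blt (n + 1) N0 = true := Nat.ble_eq_true_of_le h
  rw [this, cond_true]

theorem PSn_last (h : n + 1 = N0) : PSn t N0 n = PSl t n := by
  unfold PSn
  have : Nat.blt (n + 1) N0 = false := by
    rw [← Bool.not_eq_true]
    intro h1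
    have := Nat.le_of_ble_eq_true h1
    omega
  rw [this, cond_false]

/-- the middle node at a state of the region -/
theorem mid_VVS (hok : t.ok = true) (hC : CertsS t N0 ve be bb bA bB bC bD bv)
    (hb : BoxOk t bA bB bC bD) (hg : grOkS t N0 = true) (hP : PtS t N0 be bb e κ s')
    (h2 : n + 2 < N0) {T : ℂ} (hT : T + (Real.sinh κ : ℂ) ≠ 0)
    (h3 : ‖omT κ T‖ ≤ RS t (n + 1) e κ)
    (h4 : ‖T ^ 2 - (Real.sinh κ : ℂ) ^ 2‖ ≤ Real.sinh κ ^ 2 + t.Y n e) (h5 : loS t ≤ ‖T * e‖) :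
    MidQ t.tb e κ θ0 (dS t (n + 1) e κ) (t.Y (n + 1) e) n T := by
  have hV := mem_VVS hP.he hT h3 h4 h5
  refine midQS_of hok hP.he hP.hκ fun x hx =>
    ⟨reg4 ((1 / e : ℝ) : ℂ) ((e * κ / 2 : ℝ) : ℂ) (T * e) x, rfl, rfl, rfl, rfl, ?_⟩
  have h6 := near_allS hC hb hg hP (n := n + 1) (by omega) (by omega) hV hx
  rwa [PSn_mid (by omega)] at h6

/-- the last node at a state of the region -/
theorem last_VVS (hok : t.ok = true) (hl : t.Okl) (hf : 2 ≤ t.far)
    (hst : t.strip = true → κ ≤ 1 / 4) (hC : CertsS t N0 ve be bb bA bB bC bD bv)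
    (hb : BoxOk t bA bB bC bD) (hg : grOkS t N0 = true) (hP : PtS t N0 be bb e κ s')
    (h2 : n + 2 = N0) {T : ℂ} (hT : T + (Real.sinh κ : ℂ) ≠ 0)
    (h3 : ‖omT κ T‖ ≤ RS t (n + 1) e κ)
    (h4 : ‖T ^ 2 - (Real.sinh κ : ℂ) ^ 2‖ ≤ Real.sinh κ ^ 2 + t.Y n e) (h5 : loS t ≤ ‖T * e‖) :
    LastP t.tb e κ θ0 (dS t (n + 1) e κ) (t.Y (n + 1) e) (t.A e κ) t.x0 ((t.B1 : ℝ) / 2 ^ 40) n T := by
  have hV := mem_VVS hP.he hT h3 h4 h5
  refine lastPS_of hok hl hf hP.he hP.hκ hst fun x hx =>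
    ⟨reg4 ((1 / e : ℝ) : ℂ) ((e * κ / 2 : ℝ) : ℂ) (T * e) x, rfl, rfl, rfl, rfl, ?_⟩
  have h6 := near_allS hC hb hg hP (n := n + 1) (by omega) (by omega) hV hx
  rwa [PSn_last (by omega)] at h6

theorem loS_slab (hs : t.strip = false) (z : ℂ) : loS t ≤ ‖z‖ := by
  unfold loS
  rw [hs, cond_false]
  have := norm_nonneg z
  linarith

theorem norm_Te (he : 0 < e) (T : ℂ) : ‖T * e‖ = ‖T‖ * e := by
  rw [norm_mul, Complex.norm_real, Real.norm_of_nonneg he.le]

theorem arc_cut (hcut : cutOkS t N0 = true) (hs : t.strip = true)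
    (hn : n < N0) {T : ℂ} (hT : ‖T‖ = rv t.s1 / e) :
    ‖T ^ 2 - (Real.sinh κ : ℂ) ^ 2‖ ≤ Real.sinh κ ^ 2 + t.Y n e := by
  have h1 := cutOkS_of hcut hs hn
  refine (norm_sub_le _ _).trans ?_
  rw [norm_pow, norm_pow, hT, Complex.norm_real, Real.norm_eq_abs, sq_abs, div_pow, add_comm]
  unfold TD.Y
  have h2 : rv t.s1 ^ 2 / e ^ 2 ≤ rv (nth 0 t.y n) / e ^ 2 :=
    div_le_div_of_nonneg_right h1 (by positivity)
  unfold rv at h2 ⊢
  linarith

/-- **The near field facts.** -/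
theorem nearS (hok : t.ok = true) (hl : t.Okl) (hf : 2 ≤ t.far)
    (hst : t.strip = true → κ ≤ 1 / 4) (hC : CertsS t N0 ve be bb bA bB bC bD bv)
    (hb : BoxOk t bA bB bC bD) (hg : grOkS t N0 = true) (hcut : cutOkS t N0 = true)
    (hN : 2 ≤ N0) (hP : PtS t N0 be bb e κ s')
    (hve : 0 < ve) (hv2 : ve ≤ bv.1 + bv.2) (hv0 : t.strip = false → bv.1 ≤ bv.2)
    (hv1 : t.strip = true → ((bv.1 : ℝ) - bv.2) / 2 ^ 40 ≤ v1)
    (hcor : t.strip = true → Corner t N0 e κ (rv t.s1) v1) :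
    NearF t.tb t.isReal e κ θ0 (t.A e κ) t.x0 ((t.B1 : ℝ) / 2 ^ 40) (rv ve) (N0 - 1)
      (fun n => dS t n e κ) (fun n => t.Y n e) (fun n => RS t (n + 1) e κ) := by
  have he := hP.he
  have hκ := hP.hκ
  have hve' : 0 < rv ve := by
    unfold rv
    have : (0 : ℝ) < ve := by exact_mod_cast hve
    positivity
  have hv2' : rv ve ≤ ((bv.1 : ℝ) + bv.2) / 2 ^ 40 := by
    unfold rv
    apply div_le_div_of_nonneg_right _ (by positivity)
    exact_mod_cast hv2
  refine ⟨by omega, hve', ?_, ?_, ?_, ?_, ?_, ?_, ?_, ?_⟩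
  · show kk κ + dS t 0 e κ ≤ RS t (0 + 1) e κ
    rw [RS_succ, RS_zero, mul_one]
  · intro n _
    show kk κ * RS t (n + 1) e κ + dS t (n + 1) e κ ≤ RS t (n + 1 + 1) e κ
    rw [RS_succ t (n + 1)]
  · intro n hn
    exact hP.sf.R1 n (by omega)
  · show RS t (N0 - 1 + 1) e κ < _
    rw [Nat.sub_add_cancel (by omega)]
    exact hP.sf.ent
  · intro η h0 h1 h2
    have hzc : ((bv.1 : ℝ) - bv.2) / 2 ^ 40 ≤ Tab.vv e κ (Tb.gR e) η →
        ZeroP t.tb e κ θ0 (dS t 0 e κ) (t.Y 0 e) ((η : ℂ) * I) (t.L0 e κ ((η : ℂ) * I))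
          (t.R0 e κ ((η : ℂ) * I)) (t.M0 e κ ((η : ℂ) * I)) := by
      intro h3
      have hin : inB bv (Tab.vv e κ (Tb.gR e) η) := by
        unfold inB
        rw [abs_le]
        have h4 := h2.trans hv2'
        rw [add_div] at h4
        rw [sub_div] at h3
        constructor <;> linarith
      refine Z0.zeroP_of hok he hκ (hP.sf.tp 0 (by omega)) (cosh_eta h1) (iv_eta he η) fun x hx => ?_
      obtain ⟨ops, ho, ha⟩ := covS_pt hP hC.Z hin hx
      rw [List.mem_singleton] at ho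
      subst ho
      exact ⟨_, rfl, by rw [bS_ev (ep := 1 / e) (s := s') rfl rfl, hP.bv], rfl, rfl, comp4 ha⟩
    show ZeroP t.tb e κ θ0 (dS t 0 e κ) (t.Y 0 e) ((η : ℂ) * I) (t.L0 e κ ((η : ℂ) * I))
          (t.R0 e κ ((η : ℂ) * I)) (t.M0 e κ ((η : ℂ) * I))
    cases hs : t.strip with
    | false =>
      apply hzc
      refine le_trans ?_ (vv_nonneg he hκ h0 h1)
      have h5 : (bv.1 : ℝ) ≤ bv.2 := by exact_mod_cast hv0 hs
      exact div_nonpos_of_nonpos_of_nonneg (by linarith) (by positivity)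
    | true =>
      rcases le_total (Tab.vv e κ (Tb.gR e) η) v1 with h5 | h5
      · have h6 := (hcor hs).zero η h0 h1 h5
        rwa [dS_strip hs] at h6
      · exact hzc ((hv1 hs).trans h5)
  · intro n hn T hT h3 h4
    have h2 : n + 2 < N0 := by omega
    cases hs : t.strip with
    | false => exact midP_of_midQ (mid_VVS hok hC hb hg hP h2 hT h3 h4 (loS_slab hs _))
    | true =>
      rcases le_total ‖T‖ (rv t.s1 / e) with h5 | h5
      · have h6 := (hcor hs).mid (n + 1) (by omega) (by omega)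
        rw [dS_strip hs, RS_strip hs, Nat.add_sub_cancel] at h6
        refine midP_of_midQ (h6 ?_ T hT h5 h3)
        intro T' hT' h7 h8
        refine mid_VVS hok hC hb hg hP h2 hT' h8 (arc_cut hcut hs (by omega) h7) ?_
        unfold loS
        rw [hs, cond_true, norm_Te he, h7]
        exact le_of_eq (by field_simp)
      · refine midP_of_midQ (mid_VVS hok hC hb hg hP h2 hT h3 h4 ?_)
        unfold loS
        rw [hs, cond_true, norm_Te he]
        rwa [div_le_iff₀ he] at h5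
  · intro T hT h3 h4
    obtain ⟨n, rfl⟩ : ∃ n, N0 = n + 2 := ⟨N0 - 2, by omega⟩
    have e1 : n + 2 - 1 = n + 1 := by omega
    simp only [e1] at h3 h4 ⊢
    show LastP t.tb e κ θ0 (dS t (n + 1) e κ) (t.Y (n + 1) e) (t.A e κ) t.x0
      ((t.B1 : ℝ) / 2 ^ 40) n T
    cases hs : t.strip with
    | false => exact last_VVS hok hl hf hst hC hb hg hP rfl hT h3 h4 (loS_slab hs _)
    | true =>
      rcases le_total ‖T‖ (rv t.s1 / e) with h5 | h5
      · have h6 := (hcor hs).last (n + 1) (by omega) (by omega)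
        rw [dS_strip hs, RS_strip hs, Nat.add_sub_cancel] at h6
        refine h6 ?_ T hT h5 h3
        intro T' hT' h7 h8
        refine last_VVS hok hl hf hst hC hb hg hP rfl hT' h8
          (arc_cut hcut hs (by omega) h7) ?_
        unfold loS
        rw [hs, cond_true, norm_Te he, h7]
        exact le_of_eq (by field_simp)
      · refine last_VVS hok hl hf hst hC hb hg hP rfl hT h3 h4 ?_
        unfold loS
        rw [hs, cond_true, norm_Te he]
        rwa [div_le_iff₀ he] at h5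
  · intro η h0 h1 h2 x hx
    have h3 := hC.T [1 / e, s'] [x] (List.Forall₂.cons hP.be (List.Forall₂.cons hP.bb .nil)) rfl (by
      intro z hz
      rw [List.mem_singleton] at hz
      rw [hz]
      exact hx)
    obtain ⟨ops, ho, ha⟩ := h3
    rw [List.mem_singleton] at ho
    subst ho
    have ha' : Asserts (comp (PST t ve) ρ3 3) [((1 / e : ℝ) : ℂ), (s' : ℂ), x] := ha
    have hv : Tb.iv e κ ((η : ℂ) * I) = I * cv ve := by
      rw [iv_eta he η, h2, cv_rv]
    exact Z0.test_pt he rfl rfl hP.bv rfl hv (comp3 ha')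

end Pool.Agent.helper4.NS
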