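import Pool.Agent.helper17.NS.NearS
import Pool.Agent.helper63.NF.PieceD
import Pool.Agent.helper72.EQR.Ent
import Pool.Agent.helper71.FG.Far50

/-!
# The record of a point from the certificates, `20 ≤ e`, state `T/ε`
-/

namespace Pool.Agent.helper4.NS

open Complex ComplexConjugate Set Filter Topology
open Pool.Agent.helper31.IA (Z get InBox)
open Pool.Agent.helper31.IX (Op Asserts CovD)
open Pool.Agent.helper31.EQ.Y Pool.Agent.helper31.EQ.R
open Pool.Agent.helper12.RP Pool.Agent.helper12.FF Pool.Agent.helper12.RS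
open Pool.Agent.helper63.NF
open Pool.Agent.helper71.FG

variable {t : TD} {N0 : ℕ} {ve : ℤ} {be bb bA bB bC bD bv : ℕ × ℕ} {e κ s' A : ℝ}

/-- the far field data which the pieces use -/
def FarX (e κ A : ℝ) : Prop := ∀ x0 : ℝ, 39 / 10 ≤ x0 →
  ∃ d : FarN e κ (1 - Real.sinh κ / 1024),
    d.X 0 = Xr κ (2 * A * Real.sinh κ ^ 2) (Real.exp (-(2 * κ * (x0 + 1)))) ∧
    d.Ω 0 = OmR κ (Real.exp (-(2 * κ * (x0 + 1)))) (RE e κ (Real.exp (-(2 * κ * (x0 + 1)))))

/-- the checks of a piece; in a strip `s1 = 1/8`, `v1 = 1/20`, `b ≤ 1/4` -/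
def pieceOkS (t : TD) (N0 : ℕ) (ve : ℤ) (bb bA bB bC bD bv : ℕ × ℕ) : Bool :=
  t.ok && t.okl && boxOk t bA bB bC bD && grOkS t N0 && cutOkS t N0 && decide (2 ≤ N0) &&
  decide (2 ≤ t.far) && decide (0 < ve) && decide (ve ≤ bv.1 + bv.2) &&
  decide (49 * 2 ^ 40 ≤ 5 * t.x2) && decide (t.x2 ≤ (2 * N0 + 2 : ℕ) * 1099511627776) &&
  decide (nth 0 t.y (N0 - 1) ≤ 19 * 2 ^ 40) &&
  (bif t.strip then decide (8 * t.s1 = 2 ^ 40) && decide (20 * bv.1 ≤ 20 * bv.2 + 2 ^ 40) &&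
      (match t.bm with
        | none => true
        | some _ => false) && decide (bb.1 + bb.2 ≤ 2 ^ 38)
    else decide (bv.1 ≤ bv.2))

structure PieceOkS (t : TD) (N0 : ℕ) (ve : ℤ) (bb bA bB bC bD bv : ℕ × ℕ) : Prop where
  ok : t.ok = true
  okl : t.Okl
  box : BoxOk t bA bB bC bD
  gr : grOkS t N0 = true
  cut : cutOkS t N0 = true
  N2 : 2 ≤ N0
  far : 2 ≤ t.far
  ve0 : 0 < ve
  ve1 : ve ≤ bv.1 + bv.2
  x0 : 39 / 10 ≤ t.x0
  x2 : t.x2 ≤ (2 * N0 + 2 : ℕ) * 1099511627776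
  yL : rv (nth 0 t.y (N0 - 1)) ≤ 19
  v0 : t.strip = false → bv.1 ≤ bv.2
  st : t.strip = true → rv t.s1 = 1 / 8 ∧ ((bv.1 : ℝ) - bv.2) / 2 ^ 40 ≤ 1 / 20 ∧ t.bm = none ∧
    ((bb.1 + bb.2 : ℕ) : ℝ) / 2 ^ 40 ≤ 1 / 4

theorem pieceOkS_of (h : pieceOkS t N0 ve bb bA bB bC bD bv = true) :
    PieceOkS t N0 ve bb bA bB bC bD bv := by
  unfold pieceOkS at h
  simp only [Bool.and_eq_true, decide_eq_true_eq] at h
  obtain ⟨⟨⟨⟨⟨⟨⟨⟨⟨⟨⟨⟨a1, a2⟩, a3⟩, a4⟩, a5⟩, a6⟩, a7⟩, a8⟩, a9⟩, a10⟩, a11⟩, a12⟩, a13⟩ := h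
  refine ⟨a1, TD.okl_of a2, boxOk_of a3, a4, a5, a6, a7, a8, a9, ?_, a11, ?_, ?_, ?_⟩
  · have k2 : ((49 * 2 ^ 40 : ℤ) : ℝ) ≤ ((5 * t.x2 : ℤ) : ℝ) := by exact_mod_cast a10
    push_cast at k2
    unfold TD.x0 rv
    norm_num at k2 ⊢
    linarith
  · have k2 : ((nth 0 t.y (N0 - 1) : ℤ) : ℝ) ≤ ((19 * 2 ^ 40 : ℤ) : ℝ) := by exact_mod_cast a12
    push_cast at k2
    unfold rv
    rw [div_le_iff₀ (by positivity)]
    norm_num at k2 ⊢
    linarith
  · intro hs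
    rw [hs, cond_false, decide_eq_true_eq] at a13
    exact a13
  · intro hs
    rw [hs, cond_true] at a13
    simp only [Bool.and_eq_true, decide_eq_true_eq] at a13
    obtain ⟨⟨⟨c1, c2⟩, c3⟩, c4⟩ := a13
    refine ⟨?_, ?_, ?_, ?_⟩
    · have c1' : (8 : ℝ) * (t.s1 : ℝ) = 2 ^ 40 := by exact_mod_cast c1
      unfold rv
      norm_num at c1' ⊢
      linarith
    · have c2' : (20 : ℝ) * (bv.1 : ℝ) ≤ 20 * (bv.2 : ℝ) + 2 ^ 40 := by exact_mod_cast c2
      norm_num at c2' ⊢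
      linarith
    · cases hb : t.bm with
      | none => rfl
      | some v => rw [hb] at c3; simp at c3
    · have c4' : ((bb.1 + bb.2 : ℕ) : ℝ) ≤ ((2 ^ 38 : ℕ) : ℝ) := by exact_mod_cast c4
      rw [Nat.cast_pow] at c4'
      rw [div_le_iff₀ (by positivity)]
      norm_num at c4' ⊢
      linarith

/-- the small conditions of a strip, in the form of the first family -/
theorem SF_of_SFS (hs : t.strip = true) (he : 0 < e) (hκ : 0 < κ) (hx : 39 / 10 ≤ t.x0)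
    (h : SFS t N0 e κ t.x0) : SF t N0 e κ (39 / 10) := by
  refine ⟨h.tp, ?_, ?_, ?_⟩
  · intro n hn
    have h1 := h.yp n hn
    have h2 : Kq e κ ^ 2 + rv (nth 0 t.y n) = e ^ 2 * (Real.sinh κ ^ 2 + t.Y n e) := by
      unfold Kq TD.Y rv
      field_simp
    rw [h2] at h1
    exact pos_of_mul_pos_right h1 (by positivity)
  · intro n hn
    rw [RS_strip hs]
    exact h.R1 n hn
  · rw [RS_strip hs]
    refine h.ent.trans_le ?_
    rw [Real.exp_le_exp]
    have := mul_le_mul_of_nonneg_left hx (show 0 ≤ 2 * κ by positivity)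
    linarith

/-- in strips `κ` is small -/
theorem kap_strip (hk : PieceOkS t N0 ve bb bA bB bC bD bv) (he : 4 ≤ e)
    (hbb : inB bb s') (hbv : t.bv (1 / e) s' = e * κ / 2) (hs : t.strip = true) : κ ≤ 1 / 4 := by
  obtain ⟨-, -, h1, h2⟩ := hk.st hs
  unfold TD.bv at hbv
  rw [h1] at hbv
  have h3 : s' ≤ ((bb.1 + bb.2 : ℕ) : ℝ) / 2 ^ 40 := by
    unfold inB at hbb
    have := (abs_le.1 hbb).2
    push_cast
    rw [add_div]
    linarith
  have h4 : e * κ / 2 ≤ 1 / 4 := by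
    have : s' = e * κ / 2 := hbv
    linarith
  by_contra hc
  rw [not_le] at hc
  nlinarith

/-- **The record of a point of a piece.** -/
theorem rdata_of_pieceS (hC : CertsS t N0 ve be bb bA bB bC bD bv)
    (hk : pieceOkS t N0 ve bb bA bB bC bD bv = true) (h4 : 4 ≤ e) (hκ : 0 < κ)
    (hbe : inB be (1 / e)) (hbb : inB bb s') (hbv : t.bv (1 / e) s' = e * κ / 2)
    (hcor : t.strip = true → SF t N0 e κ (39 / 10) → Corner t N0 e κ (1 / 8) (1 / 20))
    (hA0 : 0 ≤ A) (hA : A ≤ t.A e κ) (far : FarX e κ A) : Nonempty (RDataF e κ) := by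
  have hk := pieceOkS_of hk
  have he : 0 < e := by linarith
  have hN := hk.N2
  have hst : t.strip = true → κ ≤ 1 / 4 := kap_strip hk h4 hbb hbv
  have sf : SFS t N0 e κ t.x0 := sfS_of hC.S he hκ (by omega) hst hk.x2 hbe hbb hbv
  have hP : PtS t N0 be bb e κ s' := ⟨he, hκ, hbe, hbb, hbv, sf⟩
  have hF := nearS (v1 := 1 / 20) hk.ok hk.okl hk.far hst hC hk.box hk.gr hk.cut hN hP hk.ve0 hk.ve1
    hk.v0 (fun hs => (hk.st hs).2.1) (fun hs => by
      rw [(hk.st hs).1]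
      exact hcor hs (SF_of_SFS hs he hκ hk.x0 sf))
  obtain ⟨d, dX, dΩ⟩ := far t.x0 hk.x0
  have hK := Real.sinh_pos_iff.2 hκ
  have hx0 := hk.x0
  refine rdataF_of_near (θ := max θ0 (1 - Real.sinh κ / 1024)) he hκ
    (θ0_pos.le.trans (le_max_left _ _)) (max_lt θ0_lt (by linarith))
    (farMono d (le_max_right _ _)) (hA0.trans hA) (by linarith) hk.okl.b1 ?_ ?_
    (hF.mono (le_max_left _ _))
  · intro τ
    show ‖d.X 0 τ‖ ≤ _
    rw [dX]
    apply Pool.Agent.helper63.NF.Xr_mono (by positivity) _ (Real.exp_pos _).le le_rfl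
    · rw [Real.exp_lt_one_iff]
      have : 0 < 2 * κ * (t.x0 + 1) := by positivity
      linarith
    · apply mul_le_mul_of_nonneg_right _ (by positivity)
      linarith
  · intro Q hQ h1 h2
    show tQ κ Q ∈ d.Ω 0
    rw [dΩ]
    refine Pool.Agent.helper72.EQR.ent_OmR he hκ hx0 ?_ hQ ?_ h2
    · show e ^ 2 * t.Y (N0 - 1) e ≤ 19
      refine le_trans (le_of_eq ?_) hk.yL
      unfold TD.Y rv
      field_simp
    · refine h1.trans_lt ?_
      show RS t (N0 - 1 + 1) e κ < _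
      rw [Nat.sub_add_cancel (by omega)]
      exact sf.ent

/-- check of the constants of the far field, `20 ≤ e ≤ 100` -/
def farOkS (t : TD) (bb : ℕ × ℕ) : Bool :=
  (Nat.beq t.far 2 && (match t.bm with
      | none => true
      | some _ => false) && decide (bb.1 + bb.2 ≤ 2 ^ 38) && decide (2 ^ 40 ≤ 5 * t.f1)) ||
  Nat.beq t.far 3

theorem farS_cases (hf : farOkS t bb = true) (h4 : 4 ≤ e) (hκ : 0 < κ) (hbb : inB bb s')
    (hbv : t.bv (1 / e) s' = e * κ / 2) : Ag e κ ≤ t.A e κ := by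
  unfold farOkS at hf
  simp only [Bool.or_eq_true, Bool.and_eq_true, decide_eq_true_eq] at hf
  rcases hf with ⟨⟨⟨a1, a2⟩, a3⟩, a4⟩ | a1
  · have e1 : t.far = 2 := Nat.eq_of_beq_eq_true a1
    have e2 : t.bm = none := by
      cases hb : t.bm with
      | none => rfl
      | some v => rw [hb] at a2; simp at a2
    have e3 : s' = e * κ / 2 := by
      unfold TD.bv at hbv
      rw [e2] at hbv
      exact hbv
    have e4 : s' ≤ 1 / 4 := by
      have h1 : s' ≤ ((bb.1 + bb.2 : ℕ) : ℝ) / 2 ^ 40 := by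
        unfold inB at hbb
        have := (abs_le.1 hbb).2
        push_cast
        rw [add_div]
        linarith
      refine h1.trans ?_
      have : ((bb.1 + bb.2 : ℕ) : ℝ) ≤ ((2 ^ 38 : ℕ) : ℝ) := by exact_mod_cast a3
      rw [Nat.cast_pow] at this
      rw [div_le_iff₀ (by positivity)]
      norm_num at this ⊢
      linarith
    have e5 : e * κ ≤ 1 / 2 := by linarith
    have b1 : (2 : ℝ) ^ 40 ≤ 5 * (t.f1 : ℝ) := by exact_mod_cast a4
    have c1 : 1 / 5 ≤ rv t.f1 := by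
      unfold rv
      rw [le_div_iff₀ (by positivity)]
      linarith
    unfold Ag TD.A
    rw [if_pos e5, e1]
    show e / 5 ≤ rv t.f1 * e
    have := mul_le_mul_of_nonneg_right c1 (by linarith : 0 ≤ e)
    linarith
  · have e1 : t.far = 3 := Nat.eq_of_beq_eq_true a1
    have hK := Real.sinh_pos_iff.2 hκ
    unfold Ag TD.A
    rw [e1]
    show _ ≤ 2 * e * (Real.sinh κ * e + 4)⁻¹
    rw [← div_eq_mul_inv]
    split_ifs with hs
    · have hκ8 : κ ≤ 1 / 8 := by nlinarith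
      have h1 := sinh_le hκ (by linarith : κ ≤ 1 / 4)
      have h2 : Real.sinh κ ≤ κ * (1003 / 1000) := by
        refine h1.trans (mul_le_mul_of_nonneg_left ?_ hκ.le)
        have : κ ^ 2 ≤ (1 / 8) ^ 2 := pow_le_pow_left₀ hκ.le hκ8 2
        norm_num at this ⊢
        nlinarith
      have h3 : Real.sinh κ * e ≤ 1003 / 2000 := by
        have := mul_le_mul_of_nonneg_right h2 (by linarith : 0 ≤ e)
        nlinarith
      rw [div_le_div_iff₀ (by norm_num) (by positivity)]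
      nlinarith
    · rw [add_comm (Real.sinh κ * e), mul_comm (Real.sinh κ) e]

/-- **A piece, `20 ≤ e ≤ 100`.** -/
theorem pieceS (hC : CertsS t N0 ve be bb bA bB bC bD bv)
    (hk : pieceOkS t N0 ve bb bA bB bC bD bv = true) (hf : farOkS t bb = true) (h4 : 4 ≤ e)
    (hκ : 0 < κ) (hbe : inB be (1 / e)) (hbb : inB bb s') (hbv : t.bv (1 / e) s' = e * κ / 2)
    (hcor : t.strip = true → SF t N0 e κ (39 / 10) → Corner t N0 e κ (1 / 8) (1 / 20))
    (far : FarX e κ (Ag e κ)) : Nonempty (RDataF e κ) :=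
  rdata_of_pieceS hC hk h4 hκ hbe hbb hbv hcor (Ag_pos (by linarith) hκ).le
    (farS_cases hf h4 hκ hbb hbv) far

/-- **A piece, `100 ≤ e`.** -/
theorem pieceS100 (hC : CertsS t N0 ve be bb bA bB bC bD bv)
    (hk : pieceOkS t N0 ve bb bA bB bC bD bv = true) (hf : decide (4 ≤ t.far) = true) (h4 : 4 ≤ e)
    (hκ : 0 < κ) (hbe : inB be (1 / e)) (hbb : inB bb s') (hbv : t.bv (1 / e) s' = e * κ / 2)
    (hcor : t.strip = true → SF t N0 e κ (39 / 10) → Corner t N0 e κ (1 / 8) (1 / 20))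
    (far : FarX e κ (e / (4 + e * Real.sinh κ))) : Nonempty (RDataF e κ) := by
  have he : 0 < e := by linarith
  have hK := Real.sinh_pos_iff.2 hκ
  refine rdata_of_pieceS hC hk h4 hκ hbe hbb hbv hcor (by positivity) (le_of_eq ?_) far
  have h5 := of_decide_eq_true hf
  obtain ⟨m, hm⟩ : ∃ m, t.far = m + 4 := ⟨t.far - 4, by omega⟩
  unfold TD.A
  rw [hm]
  show _ = e * (Real.sinh κ * e + 4)⁻¹
  rw [← div_eq_mul_inv, add_comm (4 : ℝ), mul_comm e (Real.sinh κ)]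

end Pool.Agent.helper4.NS
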