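import Pool.Agent.helper17.NS.SmallS

/-!
# From the certificates to the state regions, state `T/ε`
-/

namespace Pool.Agent.helper4.NS

open Complex
open Pool.Agent.helper31.IA (Z get InBox)
open Pool.Agent.helper31.IX (Op Asserts CovD)
open Pool.Agent.helper12.RS
open Pool.Agent.helper63.NF
open Pool.Agent.helper63.RG

/-- lower bound of the norm of `T e` -/
noncomputable def loS (t : TD) : ℝ := bif t.strip then rv t.s1 else -1

/-- a point of a piece -/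
structure PtS (t : TD) (N0 : ℕ) (be bb : ℕ × ℕ) (e κ s' : ℝ) : Prop where
  he : 0 < e
  hκ : 0 < κ
  be : inB be (1 / e)
  bb : inB bb s'
  bv : t.bv (1 / e) s' = e * κ / 2
  sf : SFS t N0 e κ t.x0

variable {t : TD} {N0 : ℕ} {ve : ℤ} {be bb bA bB bC bD bv : ℕ × ℕ} {e κ s' : ℝ} {n : ℕ}

/-- use of a certificate at a point -/
theorem covS_pt {L : List (List Op)} {b2 : ℕ × ℕ} (hP : PtS t N0 be bb e κ s')
    (hC : CovD 1 L [be, bb, b2]) {s : ℝ} (hs : inB b2 s) {x : ℂ} (hx : ‖x‖ ≤ 1) :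
    ∃ ops ∈ L, Asserts ops [((1 / e : ℝ) : ℂ), (s' : ℂ), (s : ℂ), x] := by
  have := hC [1 / e, s', s] [x] (List.Forall₂.cons hP.be (List.Forall₂.cons hP.bb
    (List.Forall₂.cons hs .nil))) rfl (by
      intro z hz
      rw [List.mem_singleton] at hz
      rw [hz]
      exact hx)
  exact this

theorem PtS.ins (hP : PtS t N0 be bb e κ s') (s : ℝ) (x : ℂ) :
    INS t e κ s x (reg4 ((1 / e : ℝ) : ℂ) (s' : ℂ) (s : ℂ) x) :=
  ⟨rfl, by
    rw [bS_ev (ep := 1 / e) (s := s') (by rw [upd_ne (by omega)]; rfl)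
      (by rw [upd_ne (by omega)]; rfl), hP.bv], rfl, rfl⟩

/-- a chart gives the assertions of the node -/
theorem of_circS {P1 P2 : List St} {U : ℂ} {s : ℝ} {x : ℂ}
    (hc : ∀ Q : (ℕ → ℂ) → Prop, Sem P1 (reg4 ((1 / e : ℝ) : ℂ) (s' : ℂ) (s : ℂ) x) Q →
      ∃ τ, Q τ ∧ BFS e κ τ ∧ τ 3 = x ∧ τ 5 = U)
    (h : Asserts (circ P1 P2) [((1 / e : ℝ) : ℂ), (s' : ℂ), (s : ℂ), x]) :
    Asserts (comp P2 ρ4 4) [((1 / e : ℝ) : ℂ), ((e * κ / 2 : ℝ) : ℂ), U, x] := by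
  obtain ⟨τ, h1, hB, h3, h5⟩ := hc _ (circ_sound h)
  rw [hB.ep, hB.b, h5, h3] at h1
  exact h1

/-- an alternative after a chart -/
theorem of_altS {P1 P2 : List St} {U : ℂ} {s : ℝ} {x : ℂ}
    (hc : ∀ Q : (ℕ → ℂ) → Prop, Sem P1 (reg4 ((1 / e : ℝ) : ℂ) (s' : ℂ) (s : ℂ) x) Q →
      ∃ τ, Q τ ∧ BFS e κ τ ∧ τ 3 = x ∧ τ 5 = U)
    (h : Asserts (altP P1 P2) [((1 / e : ℝ) : ℂ), (s' : ℂ), (s : ℂ), x]) :
    ∃ τ, Sem P2 τ (fun _ => True) ∧ BFS e κ τ ∧ τ 5 = U := by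
  obtain ⟨τ, h1, h2, -, h3⟩ := hc _ (sem_append _ _ _ (comp4 h))
  exact ⟨τ, h1, h2, h3⟩

variable {U : ℂ} {x : ℂ}

theorem y_sign {t : TD} {n : ℕ} : (decide (nth 0 t.y (n - 1) < 0) = true ∧ nth 0 t.y (n - 1) < 0) ∨
    (decide (nth 0 t.y (n - 1) < 0) = false ∧ ¬ nth 0 t.y (n - 1) < 0) := by
  by_cases h : nth 0 t.y (n - 1) < 0
  · exact Or.inl ⟨decide_eq_true h, h⟩
  · exact Or.inr ⟨decide_eq_false h, h⟩

/-- the second half of the outer arc -/
theorem cEF_spec {s : ℝ} (he : 0 < e) {σ : ℕ → ℂ} {Q : (ℕ → ℂ) → Prop}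
    (hI : INS t e κ s x σ) (hre : 0 < U.re) (him : 0 ≤ U.im)
    (hU : U ^ 2 = (Kq e κ : ℂ) ^ 2 - (Bq t n e κ : ℂ) * exp (-I * (s : ℂ)))
    (h : Sem (cEF t n) σ Q) : ∃ τ, Q τ ∧ BFS e κ τ ∧ τ 3 = x ∧ τ 5 = U := by
  unfold cEF at h
  rcases y_sign (t := t) (n := n) with ⟨h1, -⟩ | ⟨h1, -⟩
  · rw [h1, cond_true, ← List.append_nil (cF t n)] at h
    obtain ⟨τ, h2, hB, h3, hs, h5⟩ := cF_spec he hI h
    exact ⟨τ, h2, hB, h3, by rw [h5, root_D hs hU hre]⟩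
  · rw [h1, cond_false, ← List.append_nil (cE t n)] at h
    obtain ⟨τ, h2, hB, h3, hs, h5⟩ := cE_spec he hI h
    refine ⟨τ, h2, hB, h3, ?_⟩
    rw [h5, root_E hs (by rw [hU]; ring) him]

theorem oEF_false {s : ℝ} (he : 0 < e) (hκ : 0 < κ) {σ : ℕ → ℂ}
    {Q : (ℕ → ℂ) → Prop} (hI : INS t e κ s x σ) (hR : 0 ≤ RS t n e κ)
    (hd : ‖(Kq e κ : ℂ) - U‖ ≤ RS t n e κ * ‖(Kq e κ : ℂ) + U‖)
    (hre : 0 < U.re) (him : 0 ≤ U.im)
    (hU : U ^ 2 = (Kq e κ : ℂ) ^ 2 - (Bq t n e κ : ℂ) * exp (-I * (s : ℂ)))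
    (h : Sem (oEF t n) σ Q) : False := by
  unfold oEF at h
  rcases y_sign (t := t) (n := n) with ⟨h1, -⟩ | ⟨h1, -⟩
  · rw [h1, cond_true] at h
    exact oF_false he hκ hI hR hd (fun hs => root_D hs hU hre) h
  · rw [h1, cond_false] at h
    exact oE_false he hκ hI hR hd (fun hs => root_E hs (by rw [hU]; ring) him) h

/-- **The arcs.** -/
theorem arcsS (hC : CertsS t N0 ve be bb bA bB bC bD bv) (hb : BoxOk t bA bB bC bD)
    (hP : PtS t N0 be bb e κ s') (h1 : 1 ≤ n) (h2 : n < N0)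
    (hV : U ∈ VV (Kq e κ) (RS t n e κ) (Bq t n e κ) (loS t))
    (hor : ‖(Kq e κ : ℂ) - U‖ = RS t n e κ * ‖(Kq e κ : ℂ) + U‖ ∨
      ‖U ^ 2 - (Kq e κ : ℂ) ^ 2‖ = Bq t n e κ ∨ loS t = ‖U‖)
    (him : 0 ≤ U.im) (hx : ‖x‖ ≤ 1) :
    Asserts (comp (PSn t N0 n) ρ4 4) [((1 / e : ℝ) : ℂ), ((e * κ / 2 : ℝ) : ℂ), U, x] := by
  have he := hP.he
  have hκ := hP.hκ
  have hK := Kq_pos he hκ
  have hR0 : 0 < RS t n e κ := hP.sf.RS_pos hκ h2.le
  have hR1 : RS t n e κ < 1 := by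
    have := hP.sf.R1 (n - 1) (by omega)
    rwa [Nat.sub_add_cancel h1] at this
  have hB0 : 0 < Bq t n e κ := hP.sf.yp (n - 1) (by omega)
  obtain ⟨v1, v2, v3⟩ := hV
  have hre := re_pos_disc hK hR0.le hR1 v1
  rcases hor with hor | hor | hor
  · rcases circ_charts hK hR0 hR1 one_pos hb.A0 hb.AB hor him with ⟨s, s0, s1, hT⟩ | ⟨s, s0, s1, hT⟩
    · have hc : ∀ Q : (ℕ → ℂ) → Prop, Sem (cA t n) (reg4 ((1 / e : ℝ) : ℂ) (s' : ℂ) (s : ℂ) x) Q →
          ∃ τ, Q τ ∧ BFS e κ τ ∧ τ 3 = x ∧ τ 5 = U := fun Q h => by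
        rw [← List.append_nil (cA t n)] at h
        obtain ⟨τ, h, hB, -, h3, h5⟩ := cA_spec he hκ (hP.ins s x) hT h
        exact ⟨τ, h, hB, h3, h5⟩
      obtain ⟨ops, ho, ha⟩ := covS_pt hP (hC.A n h1 h2) (inB_of hb.A s0 s1) hx
      rcases List.mem_cons.1 ho with rfl | ho
      · exact of_circS hc ha
      rcases List.mem_cons.1 ho with rfl | ho
      · obtain ⟨τ, h, hB, h5⟩ := of_altS hc ha
        exact (oCut_false he hB h5 v2 h).elim
      · cases hs : t.strip with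
        | false =>
          rw [hs, cond_false] at ho
          exact absurd ho (by simp)
        | true =>
          rw [hs, cond_true, List.mem_singleton] at ho
          subst ho
          obtain ⟨-, -, c3, c4, c5⟩ := hb.C hs
          obtain ⟨τ, h, hB, h5⟩ := of_altS hc ha
          refine (oIn_false h5 (Pool.Agent.helper4.NS.THA_lt.le.trans c5) c4.le ?_ h).elim
          unfold loS at v3
          rwa [hs, cond_true] at v3
    · have hc : ∀ Q : (ℕ → ℂ) → Prop, Sem (cB t n) (reg4 ((1 / e : ℝ) : ℂ) (s' : ℂ) (s : ℂ) x) Q →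
          ∃ τ, Q τ ∧ BFS e κ τ ∧ τ 3 = x ∧ τ 5 = U := fun Q h => by
        rw [← List.append_nil (cB t n)] at h
        obtain ⟨τ, h, hB, -, h3, h5⟩ := cB_spec he hκ (hP.ins s x) hT h
        exact ⟨τ, h, hB, h3, h5⟩
      obtain ⟨ops, ho, ha⟩ := covS_pt hP (hC.B n h1 h2) (inB_of hb.B s0 s1) hx
      rcases List.mem_cons.1 ho with rfl | ho
      · exact of_circS hc ha
      rw [alB, List.mem_singleton] at ho
      subst ho
      obtain ⟨τ, h, hB, h5⟩ := of_altS hc ha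
      exact (oCut_false he hB h5 v2 h).elim
  · rcases outer_arc hB0 hor hre him with ⟨s, s0, s1, hT⟩ | ⟨s, s0, s1, hT⟩
    · have hc : ∀ Q : (ℕ → ℂ) → Prop, Sem (cD t n) (reg4 ((1 / e : ℝ) : ℂ) (s' : ℂ) (s : ℂ) x) Q →
          ∃ τ, Q τ ∧ BFS e κ τ ∧ τ 3 = x ∧ τ 5 = U := fun Q h => by
        rw [← List.append_nil (cD t n)] at h
        obtain ⟨τ, h, hB, h3, hs, h5⟩ := cD_spec he (hP.ins s x) h
        exact ⟨τ, h, hB, h3, by rw [h5, root_D hs hT hre]⟩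
      obtain ⟨ops, ho, ha⟩ := covS_pt hP (hC.D n h1 h2) (inB_of hb.D s0 (s1.trans hb.Dpi)) hx
      rcases List.mem_cons.1 ho with rfl | ho
      · exact of_circS hc ha
      rw [alD, List.mem_singleton] at ho
      subst ho
      exact (oD_false he hκ (hP.ins s x) hR0.le v1 (fun hs => root_D hs hT hre) (comp4 ha)).elim
    · obtain ⟨ops, ho, ha⟩ := covS_pt hP (hC.E n h1 h2) (inB_of hb.D s0 (s1.trans hb.Dpi)) hx
      rcases List.mem_cons.1 ho with rfl | ho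
      · exact of_circS (fun Q h => cEF_spec he (hP.ins s x) hre him hT h) ha
      rw [alE, List.mem_singleton] at ho
      subst ho
      exact (oEF_false he hκ (hP.ins s x) hR0.le v1 hre him hT (comp4 ha)).elim
  · cases hs : t.strip with
    | false =>
      unfold loS at hor
      rw [hs, cond_false] at hor
      have := norm_nonneg U
      linarith
    | true =>
      unfold loS at hor
      rw [hs, cond_true] at hor
      obtain ⟨c1, c2, c3, c4, c5⟩ := hb.C hs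
      obtain ⟨s, s0, s1, hT⟩ := inner_arc c3 hor.symm hre him
      obtain ⟨ops, ho, ha⟩ := covS_pt hP (hC.C hs n h1 h2) (inB_of c1 s0 (s1.trans c2)) hx
      rcases List.mem_cons.1 ho with rfl | ho
      · refine of_circS (fun Q h => ?_) ha
        rw [← List.append_nil (cC t)] at h
        obtain ⟨τ, h, hB, h3, h5⟩ := cC_spec he (hP.ins s x) h
        exact ⟨τ, h, hB, h3, by rw [h5, hT]⟩
      rw [alC, List.mem_singleton] at ho
      subst ho
      exact (oC_false he hκ (hP.ins s x) hR0.le hR1.le v1 hT (comp4 ha)).elim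

/-- checks of the programs of the near nodes -/
def grOkS (t : TD) (N0 : ℕ) : Bool :=
  (List.range (N0 - 1)).all fun k => guard [] [] (comp (PSn t N0 (k + 1)) ρ4 4) &&
    realP (comp (PSn t N0 (k + 1)) ρ4 4)

theorem grOkS_of (h : grOkS t N0 = true) (h1 : 1 ≤ n) (h2 : n < N0) :
    guard [] [] (comp (PSn t N0 n) ρ4 4) = true ∧ realP (comp (PSn t N0 n) ρ4 4) = true := by
  unfold grOkS at h
  rw [List.all_eq_true] at h
  have := h (n - 1) (List.mem_range.2 (by omega))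
  rw [Nat.sub_add_cancel h1, Bool.and_eq_true] at this
  exact this

/-- **The assertions of the near node `n` in its region.** -/
theorem near_allS (hC : CertsS t N0 ve be bb bA bB bC bD bv) (hb : BoxOk t bA bB bC bD)
    (hg : grOkS t N0 = true) (hP : PtS t N0 be bb e κ s') (h1 : 1 ≤ n) (h2 : n < N0)
    (hV : U ∈ VV (Kq e κ) (RS t n e κ) (Bq t n e κ) (loS t)) (hx : ‖x‖ ≤ 1) :
    Sem (PSn t N0 n) (reg4 ((1 / e : ℝ) : ℂ) ((e * κ / 2 : ℝ) : ℂ) U x) (fun _ => True) := by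
  obtain ⟨g1, g2⟩ := grOkS_of hg h1 h2
  have := region_VV (pre := [1 / e, e * κ / 2]) (nd := 1) g1 g2 (K := Kq e κ) (R := RS t n e κ)
    (B := Bq t n e κ) (lo := loS t) (by
      intro z hz hor him post hp hp1
      match post, hp, hp1 with
      | [y], _, hp1 => exact arcsS hC hb hP h1 h2 hz hor him (hp1 y (by simp))) U hV [x] rfl (by
      intro z hz
      rw [List.mem_singleton] at hz
      rw [hz]
      exact hx)
  exact comp4 this

/-- the scaled state is in the region -/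
theorem mem_VVS (he : 0 < e) {T : ℂ} (hT : T + (Real.sinh κ : ℂ) ≠ 0)
    (h1 : ‖omT κ T‖ ≤ RS t (n + 1) e κ)
    (h2 : ‖T ^ 2 - (Real.sinh κ : ℂ) ^ 2‖ ≤ Real.sinh κ ^ 2 + t.Y n e)
    (h3 : loS t ≤ ‖T * e‖) : T * e ∈ VV (Kq e κ) (RS t (n + 1) e κ) (Bq t (n + 1) e κ) (loS t) := by
  have he0 : (e : ℂ) ≠ 0 := by exact_mod_cast he.ne'
  refine ⟨?_, ?_, h3⟩
  · have e1 : ((Kq e κ : ℝ) : ℂ) - T * e = ((Real.sinh κ : ℂ) - T) * e := by
      unfold Kq
      push_cast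
      ring
    have e2 : ((Kq e κ : ℝ) : ℂ) + T * e = ((Real.sinh κ : ℂ) + T) * e := by
      unfold Kq
      push_cast
      ring
    rw [e1, e2, norm_mul, norm_mul, ← mul_assoc]
    apply mul_le_mul_of_nonneg_right _ (norm_nonneg _)
    unfold omT at h1
    have hne : (Real.sinh κ : ℂ) + T ≠ 0 := by rwa [add_comm]
    rw [norm_div, div_le_iff₀ (norm_pos_iff.2 hne)] at h1
    exact h1
  · have e1 : (T * e) ^ 2 - ((Kq e κ : ℝ) : ℂ) ^ 2 = (T ^ 2 - (Real.sinh κ : ℂ) ^ 2) * ((e ^ 2 : ℝ) : ℂ) := by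
      unfold Kq
      push_cast
      ring
    rw [e1, norm_mul, Complex.norm_real, Real.norm_of_nonneg (by positivity)]
    have h4 := mul_le_mul_of_nonneg_right h2 (show (0 : ℝ) ≤ e ^ 2 by positivity)
    refine h4.trans (le_of_eq ?_)
    unfold Bq Kq TD.Y rv
    rw [Nat.add_sub_cancel]
    have : e ≠ 0 := he.ne'
    field_simp

end Pool.Agent.helper4.NS
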