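import Pool.Agent.helper17.NS.SpecAlt
import Pool.Agent.helper63.NF.Region

/-!
# Meaning of the small certificate, state `T/ε`
-/

namespace Pool.Agent.helper4.NS

open Complex
open Pool.Agent.helper31.IA (Z get InBox)
open Pool.Agent.helper31.IX (Op Asserts CovD)
open Pool.Agent.helper12.RS
open Pool.Agent.helper63.NF

/-- what the small certificate gives -/
structure SFS (t : TD) (N0 : ℕ) (e κ x0 : ℝ) : Prop where
  tp : ∀ n, n < N0 → 0 < t.tR n e κ
  yp : ∀ n, n < N0 → 0 < Kq e κ ^ 2 + rv (nth 0 t.y n)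
  R1 : ∀ n, n < N0 → RS t (n + 1) e κ < 1
  ent : RS t N0 e κ < Real.exp (-(2 * κ * x0))

theorem SFS.RS_pos {t : TD} {N0 : ℕ} {e κ x0 : ℝ} (h : SFS t N0 e κ x0) (hκ : 0 < κ) {n : ℕ}
    (hn : n ≤ N0) : 0 < RS t n e κ := by
  have h1 : 0 ≤ t.sR n e κ := Finset.sum_nonneg fun j hj =>
    (h.tp j ((Finset.mem_range.1 hj).trans_le hn)).le
  have h2 := Real.sinh_pos_iff.2 hκ
  have h3 := kk_pos κ
  unfold RS
  positivity

/-- the conditions for the nodes before `n` -/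
structure SNS (t : TD) (n : ℕ) (e κ : ℝ) : Prop where
  tp : ∀ j, j < n → 0 < t.tR j e κ
  yp : ∀ j, j < n → 0 < Kq e κ ^ 2 + rv (nth 0 t.y j)
  R1 : ∀ j, j < n → RS t (j + 1) e κ < 1

theorem sem_join {Q : (ℕ → ℂ) → Prop} : ∀ (A B : List St) (σ : ℕ → ℂ),
    Sem A σ (fun τ => Sem B τ Q) → Sem (A ++ B) σ Q := by
  intro A
  induction A with
  | nil => intro B σ h; exact h
  | cons s t ih =>
    intro B σ h
    cases s with
    | set i e => exact ⟨h.1, fun v hv => ih _ _ (h.2 v hv)⟩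
    | pos e => exact ⟨h.1, h.2.1, ih _ _ h.2.2⟩
    | lt e B => exact ⟨h.1, h.2.1, ih _ _ h.2.2⟩
    | rball i a b => exact ⟨h.1, h.2.1, fun v hv => ih _ _ (h.2.2 v hv)⟩

theorem smallQ_spec {t : TD} {e κ : ℝ} (he : 0 < e) (hκ : 0 < κ) : ∀ (n : ℕ) {σ : ℕ → ℂ}
    {Q : (ℕ → ℂ) → Prop}, BFS e κ σ → MI t.Lt (t.tb.de e) (t.tb.db e κ) σ → Sem (smallQ t n) σ Q →
    ∃ τ, Q τ ∧ BFS e κ τ ∧ MI t.Lt (t.tb.de e) (t.tb.db e κ) τ ∧ (0 < n → GFS t n e κ τ) ∧
      SNS t n e κ := by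
  intro n
  induction n with
  | zero =>
    intro σ Q hB hM h
    exact ⟨σ, h, hB, hM, fun h0 => absurd h0 (lt_irrefl _), ⟨fun j hj => by omega, fun j hj => by omega,
      fun j hj => by omega⟩⟩
  | succ n ih =>
    intro σ Q hB hM h
    have h := sem_append _ _ _ h
    have h := sem_append _ _ _ h
    have h := sem_append _ _ _ h
    obtain ⟨τ, h, hB1, hM1, -, hS⟩ := ih hB hM h
    obtain ⟨-, p1, -, p2, h⟩ := h
    have h : Sem (geS t (n + 1) ++ [.pos (.r 24)]) τ Q := sem_join _ _ _ h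
    have h1 : Sem (([St.set (mreg 1 0) ((E.r 0).sub (E.c (zi t.ec))),
        St.set (mreg 0 1) (bif t.bc == 0 then E.r 4 else (E.r 4).sub (E.c (zi t.bc)))] ++
      monos [] t.Lt) ++ (geS2 t (n + 1) ++ [.pos (.r 24)])) τ Q := by
      have e1 : geS t (n + 1) ++ [.pos (.r 24)] =
        ([St.set (mreg 1 0) ((E.r 0).sub (E.c (zi t.ec))),
        St.set (mreg 0 1) (bif t.bc == 0 then E.r 4 else (E.r 4).sub (E.c (zi t.bc)))] ++
      monos [] t.Lt) ++ (geS2 t (n + 1) ++ [.pos (.r 24)]) := by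
        unfold geS geS2
        simp only [List.append_assoc]
      rw [e1] at h
      exact h
    have h2 := sem_append _ _ _ h1
    obtain ⟨σ1, h3, hB2, hM2, k1⟩ := Pool.Agent.helper4.NS.mon_spec (L := t.Lt) hB1 h2
    have h3 := sem_append _ _ _ h3
    obtain ⟨τ', h, hB3, hG, k2⟩ := geS2_spec he hκ hB2 hM2 h3
    obtain ⟨-, p3, h⟩ := h
    have hM3 : MI t.Lt (t.tb.de e) (t.tb.db e κ) τ' := by
      have key : ∀ i j, τ' (mreg i j) = σ1 (mreg i j) := fun i j => k2 _ (by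
        have := mreg_ge i j
        omega)
      exact ⟨by rw [key, hM2.hu], by rw [key, hM2.hv], fun i j hij => by rw [key, hM2.hm i j hij]⟩
    refine ⟨τ', h, hB3, hM3, fun _ => hG, ?_, ?_, ?_⟩
    · intro j hj
      rcases Nat.lt_succ_iff_lt_or_eq.1 hj with h1 | rfl
      · exact hS.tp j h1
      · rw [q2E_ev0 hM1] at p1
        exact p1
    · intro j hj
      rcases Nat.lt_succ_iff_lt_or_eq.1 hj with h1 | rfl
      · exact hS.yp j h1
      · have p2' : 0 < (τ 20 + (zi (nth 0 t.y j)).val).re := p2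
        rw [hB1.Ke2', zi_val, cv_rv] at p2'
        have e1 : ((Kq e κ : ℝ) : ℂ) * ((Kq e κ : ℝ) : ℂ) + (rv (nth 0 t.y j) : ℂ) =
            ((Kq e κ ^ 2 + rv (nth 0 t.y j) : ℝ) : ℂ) := by
          push_cast
          ring
        rw [e1, Complex.ofReal_re] at p2'
        exact p2'
    · intro j hj
      rcases Nat.lt_succ_iff_lt_or_eq.1 hj with h1 | rfl
      · exact hS.R1 j h1
      · have p3' : 0 < (τ' 24).re := p3
        rw [hG.rho, Complex.ofReal_re] at p3'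
        have hs := Real.sinh_pos_iff.2 hκ
        have := (div_pos_iff_of_pos_right hs).1 p3'
        linarith

theorem entQ_spec {t : TD} {N0 : ℕ} {e κ : ℝ} (he : 0 < e) (hκ : 0 < κ)
    (hst : t.strip = true → κ ≤ 1 / 4) (hx : t.x2 ≤ (2 * N0 + 2 : ℕ) * 1099511627776)
    {σ : ℕ → ℂ} {Q : (ℕ → ℂ) → Prop} (hB : BFS e κ σ)
    (hG : GFS t N0 e κ σ) (hs : 0 ≤ t.sR N0 e κ) (h : Sem (entQ t N0) σ Q) :
    RS t N0 e κ < Real.exp (-(2 * κ * t.x0)) := by
  have e6 := hB.h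
  have e15 := hB.h2
  have e22 := hB.one
  have e19 := hG.s
  have e0 := hB.ep
  have e18 := hB.Ke
  obtain ⟨a, ha⟩ : ∃ a : ℝ, a = (N0 : ℝ) - t.x0 := ⟨_, rfl⟩
  have ha0 : 0 ≤ a := by
    have h1 : (t.x2 : ℝ) ≤ ((2 * N0 + 2 : ℕ) : ℝ) * 1099511627776 := by exact_mod_cast hx
    rw [ha]
    unfold TD.x0 rv
    have h2 : (t.x2 : ℝ) / 2 ^ 40 ≤ 2 * N0 + 2 := by
      rw [div_le_iff₀ (by positivity)]
      push_cast at h1
      norm_num
      linarith
    linarith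
  have v2 : (zi ((2 * N0 + 2 : ℕ) * 1099511627776 - t.x2)).val = ((2 * a : ℝ) : ℂ) := by
    rw [zi_val, cv_rv, ha]
    unfold rv TD.x0 rv
    push_cast
    field_simp
    ring
  have hf : Real.exp (-(2 * κ * N0)) * Real.exp (2 * (a * κ)) = Real.exp (-(2 * κ * t.x0)) := by
    rw [← Real.exp_add, ha]
    congr 1
    ring
  unfold entQ at h
  by_cases hb : t.strip = true
  · rw [hb, cond_true] at h
    have k1 := hst hb
    have v3 : (zi 183251937962).val = ((183251937962 / 2 ^ 40 : ℝ) : ℂ) := by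
      rw [zi_val, cv_rv]
      unfold rv
      norm_num
    have v4 : (zi 737405800448).val = ((737405800448 / 2 ^ 40 : ℝ) : ℂ) := by
      rw [zi_val, cv_rv]
      unfold rv
      norm_num
    obtain ⟨-, h⟩ := sem_set h (x := ((a * κ : ℝ) : ℂ)) (by
      show (zi _).val * σ 6 = _
      rw [v2, e6]
      push_cast
      ring)
    obtain ⟨-, p, -⟩ := h
    simp only [E.ev, upd, Nat.reduceEqDiff, reduceIte] at p
    rw [v2, v3, v4, e15, e22, e19, ← Complex.ofReal_exp] at p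
    have p' : 0 < 2 * a * (Real.exp (a * κ) * (183251937962 / 2 ^ 40 * (a * κ * (a * κ)) + 1)) -
        t.sR N0 e κ * (184351450112 / 2 ^ 40 * (κ * κ) + 1) := by
      have : (((2 * a : ℝ) : ℂ) * ((Real.exp (a * κ) : ℂ) * (((183251937962 / 2 ^ 40 : ℝ) : ℂ) *
          (((a * κ : ℝ) : ℂ) * ((a * κ : ℝ) : ℂ)) + 1)) -
          (t.sR N0 e κ : ℂ) * (((737405800448 / 2 ^ 40 : ℝ) : ℂ) * (((κ / 2 : ℝ) : ℂ) ^ 2) + 1)) =
          ((2 * a * (Real.exp (a * κ) * (183251937962 / 2 ^ 40 * (a * κ * (a * κ)) + 1)) -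
        t.sR N0 e κ * (184351450112 / 2 ^ 40 * (κ * κ) + 1) : ℝ) : ℂ) := by
        push_cast
        ring
      rw [this, Complex.ofReal_re] at p
      exact p
    have g1 := two_sinh_ge (y := a * κ) (by positivity)
    have g2 := sinh_le hκ k1
    have g3 : Real.sinh κ * t.sR N0 e κ < Real.exp (2 * (a * κ)) - 1 := by
      calc Real.sinh κ * t.sR N0 e κ ≤ κ * (184351450112 / 2 ^ 40 * κ ^ 2 + 1) * t.sR N0 e κ :=
            mul_le_mul_of_nonneg_right g2 hs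
        _ = κ * (t.sR N0 e κ * (184351450112 / 2 ^ 40 * (κ * κ) + 1)) := by ring
        _ < κ * (2 * a * (Real.exp (a * κ) * (183251937962 / 2 ^ 40 * (a * κ * (a * κ)) + 1))) :=
            mul_lt_mul_of_pos_left (by linarith) hκ
        _ = 2 * (a * κ) * (Real.exp (a * κ) * (183251937962 / 2 ^ 40 * (a * κ * (a * κ)) + 1)) := by
            ring
        _ ≤ _ := g1
    unfold RS
    rw [kk_exp, ← hf]
    exact mul_lt_mul_of_pos_left (by linarith) (Real.exp_pos _)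
  · have hb' : t.strip = false := by simpa using hb
    rw [hb', cond_false] at h
    have v5 : (zi (2 * ((2 * N0 + 2 : ℕ) * 1099511627776 - t.x2))).val = ((4 * a : ℝ) : ℂ) := by
      rw [zi_val, cv_rv, ha]
      unfold rv TD.x0 rv
      push_cast
      field_simp
      ring
    obtain ⟨-, p, -⟩ := h
    simp only [E.ev] at p
    rw [v5, e6, e22, e19, e0, e18] at p
    have hK := Real.sinh_pos_iff.2 hκ
    have p' : (Real.sinh κ * t.sR N0 e κ + 1) * Real.exp (-(2 * (a * κ))) < 1 := by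
      have he0 : (e : ℂ) ≠ 0 := by exact_mod_cast he.ne'
      have e1 : (((1 / e : ℝ) : ℂ) * ((Real.sinh κ : ℂ) * e) * (t.sR N0 e κ : ℂ) + 1) *
          exp (-(((4 * a : ℝ) : ℂ) * ((κ / 2 : ℝ) : ℂ))) =
          (((Real.sinh κ * t.sR N0 e κ + 1) * Real.exp (-(2 * (a * κ))) : ℝ) : ℂ) := by
        have e2 : -(((4 * a : ℝ) : ℂ) * ((κ / 2 : ℝ) : ℂ)) = ((-(2 * (a * κ)) : ℝ) : ℂ) := by
          push_cast
          ring
        rw [e2, ← Complex.ofReal_exp]
        push_cast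
        field_simp
      rw [e1, Complex.norm_real, Real.norm_of_nonneg (by positivity)] at p
      exact p.trans Pool.Agent.helper4.NS.THA_lt
    have g1 : 1 + Real.sinh κ * t.sR N0 e κ < Real.exp (2 * (a * κ)) := by
      rw [Real.exp_neg] at p'
      have h1 := Real.exp_pos (2 * (a * κ))
      rw [← div_eq_mul_inv, div_lt_one h1] at p'
      linarith
    unfold RS
    rw [kk_exp, ← hf]
    exact mul_lt_mul_of_pos_left g1 (Real.exp_pos _)

/-- **The small conditions.** -/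
theorem sfS_of {t : TD} {N0 : ℕ} {be bb : ℕ × ℕ} (hC : CovD 0 [PSS t N0] [be, bb]) {e κ s : ℝ}
    (he : 0 < e) (hκ : 0 < κ) (hN : 0 < N0) (hst : t.strip = true → κ ≤ 1 / 4)
    (hx : t.x2 ≤ (2 * N0 + 2 : ℕ) * 1099511627776)
    (h0 : |1 / e - (be.1 : ℝ) / 2 ^ 40| ≤ (be.2 : ℝ) / 2 ^ 40)
    (h1 : |s - (bb.1 : ℝ) / 2 ^ 40| ≤ (bb.2 : ℝ) / 2 ^ 40) (hb : t.bv (1 / e) s = e * κ / 2) :
    SFS t N0 e κ t.x0 := by
  obtain ⟨ops, ho, ha⟩ := hC [1 / e, s] [] (List.Forall₂.cons h0 (List.Forall₂.cons h1 .nil)) rfl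
    (by simp)
  rw [List.mem_singleton] at ho
  subst ho
  have h := comp2 ha
  have h := sem_append _ _ _ h
  obtain ⟨τ, h, hB, -, -⟩ := basS_spec (κ := κ) he rfl (by
    rw [bS_ev (ep := 1 / e) (s := s) (by rw [upd_ne (by omega)]; rfl)
      (by rw [upd_ne (by omega)]; rfl), hb]) h
  rw [← List.append_assoc] at h
  have h := sem_append _ _ _ h
  obtain ⟨τ1, h, hB1, hM, f1⟩ := Pool.Agent.helper4.NS.mon_spec hB h
  have h := sem_append _ _ _ h
  obtain ⟨τ2, h, hB2, -, hG, hS⟩ := smallQ_spec he hκ N0 hB1 hM h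
  exact ⟨hS.tp, hS.yp, hS.R1, entQ_spec he hκ hst hx hB2 (hG hN)
    (Finset.sum_nonneg fun j hj => (hS.tp j (Finset.mem_range.1 hj)).le) h⟩

end Pool.Agent.helper4.NS
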