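import Pool.Agent.helper17.NS.SpecCh2

/-!
# The alternatives, state `T/ε`
-/

namespace Pool.Agent.helper4.NS

open Complex ComplexConjugate
open Pool.Agent.helper31.IA (Z get)
open Pool.Agent.helper12.RS
open Pool.Agent.helper63.NF

theorem THA_lt : ((THA : ℕ) : ℝ) / 2 ^ 40 < 1 := by
  unfold THA
  norm_num

/-- outside of the cut -/
theorem oCut_false {t : TD} {n : ℕ} {e κ : ℝ} (he : 0 < e) {σ : ℕ → ℂ} {Q : (ℕ → ℂ) → Prop}
    (hB : BFS e κ σ) {U : ℂ} (h5 : σ 5 = U) (hcut : ‖U ^ 2 - (Kq e κ : ℂ) ^ 2‖ ≤ Bq t n e κ)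
    (h : Sem (oCut t n) σ Q) : False := by
  unfold oCut at h
  have h := sem_append _ _ _ h
  obtain ⟨σ1, h, hB, k30, k⟩ := BS_spec hB h
  have e5 : σ1 5 = U := by rw [k 5 (by omega), h5]
  have hep : (0 : ℝ) < 1 / e := by positivity
  have hz : E.ev σ1 ((((E.r 0).mul (E.r 5)).mul (E.r 5)).sub ((E.r 0).mul (E.r 20))) =
      ((1 / e : ℝ) : ℂ) * (U ^ 2 - (Kq e κ : ℂ) ^ 2) := by
    show σ1 0 * σ1 5 * σ1 5 - σ1 0 * σ1 20 = _
    rw [hB.ep, e5, hB.Ke2']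
    ring
  have hne := h.1.2.2
  rw [hz] at hne
  have hlt := h.2.1
  have h1 : E.ev σ1 (((E.r 0).mul (E.r 30)).mul ((((E.r 0).mul (E.r 5)).mul (E.r 5)).sub
      ((E.r 0).mul (E.r 20))).inv) =
      (Bq t n e κ : ℂ) * (U ^ 2 - (Kq e κ : ℂ) ^ 2)⁻¹ := by
    show σ1 0 * σ1 30 * (E.ev σ1 ((((E.r 0).mul (E.r 5)).mul (E.r 5)).sub
      ((E.r 0).mul (E.r 20))))⁻¹ = _
    rw [hz, hB.ep, k30]
    have h2 : ((1 / e : ℝ) : ℂ) ≠ 0 := by exact_mod_cast hep.ne'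
    have h3 : U ^ 2 - (Kq e κ : ℂ) ^ 2 ≠ 0 := fun h0 => hne (by rw [h0, mul_zero])
    rw [mul_inv]
    field_simp
  rw [h1, norm_mul, norm_inv, Complex.norm_real, Real.norm_eq_abs] at hlt
  have h3 : 0 < ‖U ^ 2 - (Kq e κ : ℂ) ^ 2‖ := by
    rw [norm_pos_iff]
    intro h0
    exact hne (by rw [h0, mul_zero])
  have h4 := hlt.trans THA_lt
  rw [← div_eq_mul_inv, div_lt_one h3] at h4
  exact absurd ((le_abs_self _).trans_lt h4) (not_lt.2 hcut)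

/-- inside the inner circle -/
theorem oIn_false {t : TD} {σ : ℕ → ℂ} {Q : (ℕ → ℂ) → Prop} {U : ℂ} (h5 : σ 5 = U)
    (hs : ((THA : ℕ) : ℝ) / 2 ^ 40 ≤ rv t.is1 * rv t.s1) (hi : 0 ≤ rv t.is1) (hlo : rv t.s1 ≤ ‖U‖)
    (h : Sem (oIn t) σ Q) : False := by
  have hlt := h.2.1
  have h1 : E.ev σ (E.sc (zi t.is1) (E.r 5)) = (rv t.is1 : ℂ) * U := by
    show (zi t.is1).val * σ 5 = _
    rw [zi_val, cv_rv, h5]
  rw [h1, norm_mul, Complex.norm_real, Real.norm_of_nonneg hi] at hlt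
  have h2 := mul_le_mul_of_nonneg_left hlo hi
  linarith

/-- the disc -/
theorem disc_re {K R : ℝ} (hK : 0 < K) (hR : 0 ≤ R) {U : ℂ}
    (h : ‖(K : ℂ) - U‖ ≤ R * ‖(K : ℂ) + U‖) :
    (1 - R) / K * (R + 1) * (K ^ 2 + ‖U‖ ^ 2) ≤ (R ^ 2 + 1) * (2 * U.re) := by
  have h1 : ‖(K : ℂ) - U‖ ^ 2 ≤ R ^ 2 * ‖(K : ℂ) + U‖ ^ 2 := by
    rw [← mul_pow]
    exact pow_le_pow_left₀ (norm_nonneg _) h 2
  have e1 : ‖(K : ℂ) - U‖ ^ 2 = K ^ 2 - 2 * K * U.re + ‖U‖ ^ 2 := by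
    rw [← Complex.normSq_eq_norm_sq, ← Complex.normSq_eq_norm_sq, Complex.normSq_apply,
      Complex.normSq_apply, sub_re, sub_im, ofReal_re, ofReal_im]
    ring
  have e2 : ‖(K : ℂ) + U‖ ^ 2 = K ^ 2 + 2 * K * U.re + ‖U‖ ^ 2 := by
    rw [← Complex.normSq_eq_norm_sq, ← Complex.normSq_eq_norm_sq, Complex.normSq_apply,
      Complex.normSq_apply, add_re, add_im, ofReal_re, ofReal_im]
    ring
  rw [e1, e2] at h1
  have h2 : (1 - R) * (R + 1) * (K ^ 2 + ‖U‖ ^ 2) ≤ K * ((R ^ 2 + 1) * (2 * U.re)) := by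
    nlinarith
  have h3 : (1 - R) / K * (R + 1) * (K ^ 2 + ‖U‖ ^ 2) =
      ((1 - R) * (R + 1) * (K ^ 2 + ‖U‖ ^ 2)) / K := by
    field_simp
  rw [h3, div_le_iff₀ hK]
  linarith

theorem add_conj_re (U : ℂ) : U + conj U = ((2 * U.re : ℝ) : ℂ) := by
  apply Complex.ext
  · simp
    ring
  · simp

theorem mul_conj_norm (U : ℂ) : U * conj U = ((‖U‖ ^ 2 : ℝ) : ℂ) := by
  rw [Complex.mul_conj, Complex.normSq_eq_norm_sq]

/-- outside of the disc, the point and its conjugate -/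
theorem oRe_false {t : TD} {n : ℕ} {e κ : ℝ} (he : 0 < e) (hκ : 0 < κ) {σ : ℕ → ℂ}
    {Q : (ℕ → ℂ) → Prop} (hB : BFS e κ σ) (hG : GFS t n e κ σ) (hR : 0 ≤ RS t n e κ) {U : ℂ}
    (h32 : σ 32 = U) (h33 : σ 33 = conj U)
    (hd : ‖(Kq e κ : ℂ) - U‖ ≤ RS t n e κ * ‖(Kq e κ : ℂ) + U‖) (h : Sem oRe σ Q) : False := by
  have hK := Kq_pos he hκ
  have h1 := disc_re hK hR hd
  have h2 := h.2.1
  have h3 : E.ev σ (((((E.r 0).mul (E.r 24)).mul ((E.r 23).add (E.r 22))).mul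
      ((E.r 20).add ((E.r 32).mul (E.r 33)))).sub
        ((((E.r 23).mul (E.r 23)).add (E.r 22)).mul ((E.r 32).add (E.r 33)))) =
      (((1 - RS t n e κ) / Kq e κ * (RS t n e κ + 1) * (Kq e κ ^ 2 + ‖U‖ ^ 2) -
        (RS t n e κ ^ 2 + 1) * (2 * U.re) : ℝ) : ℂ) := by
    show σ 0 * σ 24 * (σ 23 + σ 22) * (σ 20 + σ 32 * σ 33) - (σ 23 * σ 23 + σ 22) * (σ 32 + σ 33) = _
    rw [rq_eq hB hG, hG.R, hB.one, hB.Ke2', h32, h33, mul_conj_norm, add_conj_re]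
    unfold rq
    push_cast
    ring
  rw [h3, ofReal_re] at h2
  linarith

theorem conj_exp_half {z : ℂ} (hz : z ∈ slitPlane) :
    conj (exp (1 / 2 * log z)) = exp (1 / 2 * log (conj z)) := by
  have h1 : log (conj z) = conj (log z) := Complex.log_conj z (Complex.slitPlane_arg_ne_pi hz)
  rw [h1, ← exp_conj, map_mul, conj_half]

theorem conj_expI (s : ℝ) : conj (exp (I * (s : ℂ))) = exp (-I * (s : ℂ)) := by
  rw [← exp_conj, map_mul, conj_I, conj_ofReal]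

theorem conj_expI' (s : ℝ) : conj (exp (-I * (s : ℂ))) = exp (I * (s : ℂ)) := by
  rw [← exp_conj, map_mul, map_neg, conj_I, conj_ofReal, neg_neg]

/-- the registers before the point and its conjugate -/
theorem pre_spec {t : TD} {n : ℕ} {e κ s : ℝ} {x : ℂ} (he : 0 < e) (hκ : 0 < κ) {σ : ℕ → ℂ}
    {Q : (ℕ → ℂ) → Prop} {A : List St} (hI : INS t e κ s x σ)
    (h : Sem (basS t ++ (geS t n ++ (BS t n ++ A))) σ Q) :
    ∃ τ, Sem A τ Q ∧ BFS e κ τ ∧ GFS t n e κ τ ∧ τ 2 = s ∧ τ 20 = (Kq e κ : ℂ) ^ 2 ∧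
      τ 30 = (Bq t n e κ : ℂ) := by
  have h := sem_append _ _ _ h
  obtain ⟨σ1, h, hB, k2, k3⟩ := basS_spec he hI.ep hI.b h
  have h := sem_append _ _ _ h
  obtain ⟨σ2, h, hB, hG, k⟩ := geS_spec he hκ hB h
  have h := sem_append _ _ _ h
  obtain ⟨σ3, h, hB, k30, k'⟩ := BS_spec hB h
  refine ⟨σ3, h, hB, ⟨?_, ?_, ?_, ?_⟩, ?_, ?_, k30⟩
  · rw [k' _ (by omega), hG.qi]
  · rw [k' _ (by omega), hG.s]
  · rw [k' _ (by omega), hG.R]
  · rw [k' _ (by omega), hG.rho]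
  · rw [k' _ (by omega), k 2 (by omega) (by omega), k2, hI.s]
  · rw [hB.Ke2', sq]

/-- two more registers -/
theorem two_spec {t : TD} {n : ℕ} {e κ : ℝ} {σ : ℕ → ℂ} {Q : (ℕ → ℂ) → Prop} {a b : E} {A : List St}
    (hB : BFS e κ σ) (hG : GFS t n e κ σ) {U V : ℂ} (h : Sem (.set 32 a :: .set 33 b :: A) σ Q)
    (ha : a.ev σ = U) (hb : b.ev (upd σ 32 U) = V) :
    ∃ τ, Sem A τ Q ∧ BFS e κ τ ∧ GFS t n e κ τ ∧ τ 32 = U ∧ τ 33 = V := by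
  obtain ⟨-, h⟩ := sem_set h ha
  obtain ⟨-, h⟩ := sem_set h hb
  refine ⟨_, h, hB.of_eq fun i hi => ?_, ⟨?_, ?_, ?_, ?_⟩, ?_, upd_same _ _⟩
  · rw [upd_ne (by omega), upd_ne (by omega)]
  · rw [upd_ne (by omega), upd_ne (by omega), hG.qi]
  · rw [upd_ne (by omega), upd_ne (by omega), hG.s]
  · rw [upd_ne (by omega), upd_ne (by omega), hG.R]
  · rw [upd_ne (by omega), upd_ne (by omega), hG.rho]
  · rw [upd_ne (by omega), upd_same]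

theorem oD_false {t : TD} {n : ℕ} {e κ s : ℝ} {x : ℂ} (he : 0 < e) (hκ : 0 < κ) {σ : ℕ → ℂ}
    {Q : (ℕ → ℂ) → Prop} (hI : INS t e κ s x σ) (hR : 0 ≤ RS t n e κ) {U : ℂ}
    (hd : ‖(Kq e κ : ℂ) - U‖ ≤ RS t n e κ * ‖(Kq e κ : ℂ) + U‖)
    (hU : (Kq e κ : ℂ) ^ 2 + (Bq t n e κ : ℂ) * exp (I * (s : ℂ)) ∈ slitPlane →
      U = exp (1 / 2 * log ((Kq e κ : ℂ) ^ 2 + (Bq t n e κ : ℂ) * exp (I * (s : ℂ)))))
    (h : Sem (oD t n) σ Q) : False := by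
  unfold oD at h
  simp only [List.append_assoc] at h
  obtain ⟨σ1, h, hB, hG, k2, k20, k30⟩ := pre_spec he hκ hI h
  have hz : E.ev σ1 ((E.r 20).add ((E.r 30).mul (E.sc zI (E.r 2)).exp)) =
      (Kq e κ : ℂ) ^ 2 + (Bq t n e κ : ℂ) * exp (I * (s : ℂ)) := by
    show σ1 20 + σ1 30 * exp (zI.val * σ1 2) = _
    rw [k20, k30, k2, zI_val]
  have hs : (Kq e κ : ℂ) ^ 2 + (Bq t n e κ : ℂ) * exp (I * (s : ℂ)) ∈ slitPlane := by
    have := h.1.2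
    rwa [hz] at this
  have hU' := hU hs
  obtain ⟨σ2, h, hB, hG, k32, k33⟩ := two_spec (U := U) (V := conj U) hB hG h (by
    show exp (half.val * log (E.ev σ1 ((E.r 20).add ((E.r 30).mul (E.sc zI (E.r 2)).exp)))) = _
    rw [hz, half_val, hU']) (by
    show exp (half.val * log (upd σ1 32 U 20 + upd σ1 32 U 30 * exp (zmI.val * upd σ1 32 U 2))) = _
    rw [upd_ne (by omega), upd_ne (by omega), upd_ne (by omega), k20, k30, k2, zmI_val, half_val,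
      hU', conj_exp_half hs, map_add, map_mul, conj_expI, map_pow, conj_ofReal, conj_ofReal])
  exact oRe_false he hκ hB hG hR k32 k33 hd h

theorem oE_false {t : TD} {n : ℕ} {e κ s : ℝ} {x : ℂ} (he : 0 < e) (hκ : 0 < κ) {σ : ℕ → ℂ}
    {Q : (ℕ → ℂ) → Prop} (hI : INS t e κ s x σ) (hR : 0 ≤ RS t n e κ) {U : ℂ}
    (hd : ‖(Kq e κ : ℂ) - U‖ ≤ RS t n e κ * ‖(Kq e κ : ℂ) + U‖)
    (hU : (Bq t n e κ : ℂ) * exp (-I * (s : ℂ)) - (Kq e κ : ℂ) ^ 2 ∈ slitPlane →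
      U = I * exp (1 / 2 * log ((Bq t n e κ : ℂ) * exp (-I * (s : ℂ)) - (Kq e κ : ℂ) ^ 2)))
    (h : Sem (oE t n) σ Q) : False := by
  unfold oE at h
  simp only [List.append_assoc] at h
  obtain ⟨σ1, h, hB, hG, k2, k20, k30⟩ := pre_spec he hκ hI h
  have hz : E.ev σ1 (((E.r 30).mul (E.sc zmI (E.r 2)).exp).sub (E.r 20)) =
      (Bq t n e κ : ℂ) * exp (-I * (s : ℂ)) - (Kq e κ : ℂ) ^ 2 := by
    show σ1 30 * exp (zmI.val * σ1 2) - σ1 20 = _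
    rw [k20, k30, k2, zmI_val]
  have hs : (Bq t n e κ : ℂ) * exp (-I * (s : ℂ)) - (Kq e κ : ℂ) ^ 2 ∈ slitPlane := by
    have := h.1.2
    rwa [hz] at this
  have hU' := hU hs
  obtain ⟨σ2, h, hB, hG, k32, k33⟩ := two_spec (U := U) (V := conj U) hB hG h (by
    show zI.val * exp (half.val * log (E.ev σ1 (((E.r 30).mul (E.sc zmI (E.r 2)).exp).sub (E.r 20)))) = _
    rw [hz, half_val, zI_val, hU']) (by
    show zmI.val * exp (half.val * log (upd σ1 32 U 30 * exp (zI.val * upd σ1 32 U 2) -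
      upd σ1 32 U 20)) = _
    rw [upd_ne (by omega), upd_ne (by omega), upd_ne (by omega), k20, k30, k2, zmI_val, zI_val,
      half_val, hU', map_mul, conj_I, conj_exp_half hs, map_sub, map_mul, conj_expI', map_pow,
      conj_ofReal, conj_ofReal])
  exact oRe_false he hκ hB hG hR k32 k33 hd h

theorem oF_false {t : TD} {n : ℕ} {e κ s : ℝ} {x : ℂ} (he : 0 < e) (hκ : 0 < κ) {σ : ℕ → ℂ}
    {Q : (ℕ → ℂ) → Prop} (hI : INS t e κ s x σ) (hR : 0 ≤ RS t n e κ) {U : ℂ}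
    (hd : ‖(Kq e κ : ℂ) - U‖ ≤ RS t n e κ * ‖(Kq e κ : ℂ) + U‖)
    (hU : (Kq e κ : ℂ) ^ 2 - (Bq t n e κ : ℂ) * exp (-I * (s : ℂ)) ∈ slitPlane →
      U = exp (1 / 2 * log ((Kq e κ : ℂ) ^ 2 - (Bq t n e κ : ℂ) * exp (-I * (s : ℂ)))))
    (h : Sem (oF t n) σ Q) : False := by
  unfold oF at h
  simp only [List.append_assoc] at h
  obtain ⟨σ1, h, hB, hG, k2, k20, k30⟩ := pre_spec he hκ hI h
  have hz : E.ev σ1 ((E.r 20).sub ((E.r 30).mul (E.sc zmI (E.r 2)).exp)) =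
      (Kq e κ : ℂ) ^ 2 - (Bq t n e κ : ℂ) * exp (-I * (s : ℂ)) := by
    show σ1 20 - σ1 30 * exp (zmI.val * σ1 2) = _
    rw [k20, k30, k2, zmI_val]
  have hs : (Kq e κ : ℂ) ^ 2 - (Bq t n e κ : ℂ) * exp (-I * (s : ℂ)) ∈ slitPlane := by
    have := h.1.2
    rwa [hz] at this
  have hU' := hU hs
  obtain ⟨σ2, h, hB, hG, k32, k33⟩ := two_spec (U := U) (V := conj U) hB hG h (by
    show exp (half.val * log (E.ev σ1 ((E.r 20).sub ((E.r 30).mul (E.sc zmI (E.r 2)).exp)))) = _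
    rw [hz, half_val, hU']) (by
    show exp (half.val * log (upd σ1 32 U 20 - upd σ1 32 U 30 * exp (zI.val * upd σ1 32 U 2))) = _
    rw [upd_ne (by omega), upd_ne (by omega), upd_ne (by omega), k20, k30, k2, zI_val,
      half_val, hU', conj_exp_half hs, map_sub, map_mul, conj_expI', map_pow,
      conj_ofReal, conj_ofReal])
  exact oRe_false he hκ hB hG hR k32 k33 hd h

/-- the point of the inner arc -/
theorem inner_pt {s1 s : ℝ} : ‖(s1 : ℂ) * ((I * (s : ℂ) + 1) * (1 - I * (s : ℂ))⁻¹)‖ ^ 2 = s1 ^ 2 ∧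
    ((s1 : ℂ) * ((I * (s : ℂ) + 1) * (1 - I * (s : ℂ))⁻¹)).re * (s ^ 2 + 1) = s1 * (1 - s ^ 2) := by
  have hs : 0 < s ^ 2 + 1 := by positivity
  have h1 : (1 - I * (s : ℂ))⁻¹ = (((s ^ 2 + 1)⁻¹ : ℝ) : ℂ) * (1 + I * (s : ℂ)) := by
    have hne : (1 - I * (s : ℂ)) ≠ 0 := by
      intro h0
      have := congrArg Complex.re h0
      simp at this
    rw [inv_eq_iff_eq_inv, mul_inv, ofReal_inv, inv_inv]
    have hne2 : (1 + I * (s : ℂ)) ≠ 0 := by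
      intro h0
      have := congrArg Complex.re h0
      simp at this
    rw [eq_mul_inv_iff_mul_eq₀ hne2]
    push_cast
    linear_combination -(s : ℂ) ^ 2 * I_mul_I
  have h2 : (s1 : ℂ) * ((I * (s : ℂ) + 1) * (1 - I * (s : ℂ))⁻¹) =
      ((s1 * (1 - s ^ 2) / (s ^ 2 + 1) : ℝ) : ℂ) + ((s1 * (2 * s) / (s ^ 2 + 1) : ℝ) : ℂ) * I := by
    rw [h1]
    have hc : ((s : ℂ) ^ 2 + 1) ≠ 0 := by exact_mod_cast hs.ne'
    push_cast
    field_simp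
    linear_combination (s : ℂ) ^ 2 * (s1 : ℂ) * I_mul_I
  obtain ⟨a, ha⟩ : ∃ a, a = s1 * (1 - s ^ 2) / (s ^ 2 + 1) := ⟨_, rfl⟩
  obtain ⟨b, hb⟩ : ∃ b, b = s1 * (2 * s) / (s ^ 2 + 1) := ⟨_, rfl⟩
  rw [h2, ← ha, ← hb]
  have e1 : ((a : ℂ) + (b : ℂ) * I).re = a := by simp
  have e2 : ((a : ℂ) + (b : ℂ) * I).im = b := by simp
  rw [← Complex.normSq_eq_norm_sq, Complex.normSq_apply, e1, e2, ha, hb]
  constructor
  · field_simp
    ring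
  · field_simp

theorem oC_false {t : TD} {n : ℕ} {e κ s : ℝ} {x : ℂ} (he : 0 < e) (hκ : 0 < κ) {σ : ℕ → ℂ}
    {Q : (ℕ → ℂ) → Prop} (hI : INS t e κ s x σ) (hR : 0 ≤ RS t n e κ) (hR1 : RS t n e κ ≤ 1)
    {U : ℂ} (hd : ‖(Kq e κ : ℂ) - U‖ ≤ RS t n e κ * ‖(Kq e κ : ℂ) + U‖)
    (hU : U = (rv t.s1 : ℂ) * ((I * (s : ℂ) + 1) * (1 - I * (s : ℂ))⁻¹))
    (h : Sem (oC t n) σ Q) : False := by
  unfold oC at h
  simp only [List.append_assoc] at h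
  have h := sem_append _ _ _ h
  obtain ⟨σ1, h, hB, k2, k3⟩ := basS_spec he hI.ep hI.b h
  have h := sem_append _ _ _ h
  obtain ⟨σ2, h, hB, hG, k⟩ := geS_spec he hκ hB h
  have e2 : σ2 2 = (s : ℂ) := by rw [k 2 (by omega) (by omega), k2, hI.s]
  obtain ⟨-, h⟩ := sem_set h (x := (s : ℂ) * (s : ℂ)) (by
    show σ2 2 * σ2 2 = _
    rw [e2])
  have hK := Kq_pos he hκ
  have h1 := disc_re hK hR hd
  have h2 := h.2.1
  obtain ⟨q, hq⟩ : ∃ q : ℝ, q = rv (t.s1 * t.s1 / 1099511627776) := ⟨_, rfl⟩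
  have hq1 : q ≤ rv t.s1 ^ 2 := by
    rw [hq]
    unfold rv
    have h3 : ((t.s1 * t.s1 / 1099511627776 : ℤ) : ℝ) * 1099511627776 ≤ (t.s1 * t.s1 : ℤ) := by
      exact_mod_cast Int.ediv_mul_le (t.s1 * t.s1) (by norm_num)
    rw [div_pow, div_le_div_iff₀ (by positivity) (by positivity)]
    push_cast at h3 ⊢
    nlinarith
  have h3 : E.ev (upd σ2 31 ((s : ℂ) * (s : ℂ))) (((((E.r 0).mul (E.r 24)).mul
      ((E.r 23).add (E.r 22))).mul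
              (((E.r 20).add (E.c (zi (t.s1 * t.s1 / 1099511627776)))).mul ((E.r 31).add (E.r 22)))).sub
          ((((E.r 23).mul (E.r 23)).add (E.r 22)).mul (E.sc (zi (2 * t.s1)) ((E.r 22).sub (E.r 31))))) =
      (((1 - RS t n e κ) / Kq e κ * (RS t n e κ + 1) * ((Kq e κ ^ 2 + q) * (s ^ 2 + 1)) -
        (RS t n e κ ^ 2 + 1) * (2 * rv t.s1 * (1 - s ^ 2)) : ℝ) : ℂ) := by
    show upd σ2 31 _ 0 * upd σ2 31 _ 24 * (upd σ2 31 _ 23 + upd σ2 31 _ 22) *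
      ((upd σ2 31 _ 20 + (zi _).val) * (upd σ2 31 _ 31 + upd σ2 31 _ 22)) -
      (upd σ2 31 _ 23 * upd σ2 31 _ 23 + upd σ2 31 _ 22) *
        ((zi _).val * (upd σ2 31 _ 22 - upd σ2 31 _ 31)) = _
    rw [upd_same, upd_ne (by omega), upd_ne (by omega), upd_ne (by omega), upd_ne (by omega),
      upd_ne (by omega), rq_eq hB hG, hG.R, hB.one, hB.Ke2', zi_val, zi_val, cv_rv, cv_rv, ← hq]
    have h4 : rv (2 * t.s1) = 2 * rv t.s1 := by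
      unfold rv
      push_cast
      ring
    rw [h4]
    unfold rq
    push_cast
    ring
  rw [h3, ofReal_re] at h2
  obtain ⟨p1, p2⟩ := inner_pt (s1 := rv t.s1) (s := s)
  rw [← hU] at p1 p2
  rw [p1] at h1
  have hs : 0 < s ^ 2 + 1 := by positivity
  have h5 := mul_le_mul_of_nonneg_right h1 hs.le
  have h6 : (RS t n e κ ^ 2 + 1) * (2 * U.re) * (s ^ 2 + 1) =
      (RS t n e κ ^ 2 + 1) * (2 * rv t.s1 * (1 - s ^ 2)) := by
    linear_combination (RS t n e κ ^ 2 + 1) * 2 * p2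
  have h7 : 0 ≤ (1 - RS t n e κ) / Kq e κ * (RS t n e κ + 1) := by
    have : 0 ≤ 1 - RS t n e κ := by linarith
    positivity
  have h8 : (1 - RS t n e κ) / Kq e κ * (RS t n e κ + 1) * ((Kq e κ ^ 2 + q) * (s ^ 2 + 1)) ≤
      (1 - RS t n e κ) / Kq e κ * (RS t n e κ + 1) * ((Kq e κ ^ 2 + rv t.s1 ^ 2) * (s ^ 2 + 1)) := by
    apply mul_le_mul_of_nonneg_left _ h7
    apply mul_le_mul_of_nonneg_right _ hs.le
    linarith
  rw [h6] at h5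
  linarith

end Pool.Agent.helper4.NS
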