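import Pool.Agent.helper4.NS.SpecDef
import Pool.Agent.helper63.NF.Reg0

/-!
# Meaning of the charts, state `T/ε`
-/

namespace Pool.Agent.helper4.NS

open Complex
open Pool.Agent.helper31.IA (Z get)
open Pool.Agent.helper12.RS
open Pool.Agent.helper63.NF

/-- value of the parameter `b` -/
theorem bS_ev {t : TD} {σ : ℕ → ℂ} {ep s : ℝ} (h0 : σ 0 = (ep : ℂ)) (h1 : σ 1 = (s : ℂ)) :
    (bS t).ev σ = (t.bv ep s : ℂ) := by
  unfold bS TD.bv
  generalize t.bm = o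
  rcases o with _ | ⟨m2, m1, m0, b1⟩
  · exact h1
  · show σ 1 * (((scE m2 (E.r 0)).ev σ + (zi m1).val) * σ 0 + (zi m0).val) + (zi b1).val = _
    rw [scE_ev, zi_val, zi_val, zi_val]
    show σ 1 * ((cv m2 * σ 0 + cv m1) * σ 0 + cv m0) + cv b1 = _
    rw [h0, h1, cv_rv, cv_rv, cv_rv, cv_rv]
    push_cast
    rfl

/-- the registers after the common part of the charts -/
structure BFS (e κ : ℝ) (σ : ℕ → ℂ) : Prop where
  ep : σ 0 = ((1 / e : ℝ) : ℂ)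
  b : σ 4 = ((e * κ / 2 : ℝ) : ℂ)
  h : σ 6 = ((κ / 2 : ℝ) : ℂ)
  E : σ 8 = (Real.exp (κ / 2) : ℂ)
  Ei : σ 9 = (Real.exp (-(κ / 2)) : ℂ)
  h2 : σ 15 = ((κ / 2 : ℝ) : ℂ) ^ 2
  Ke : σ 18 = (Real.sinh κ : ℂ) * e
  Ke2 : σ 20 = ((Real.sinh κ : ℂ) * e) ^ 2
  one : σ 22 = 1

theorem BFS.of_eq {e κ : ℝ} {σ τ : ℕ → ℂ} (h : BFS e κ σ)
    (h1 : ∀ i, i = 0 ∨ i = 4 ∨ i = 6 ∨ i = 8 ∨ i = 9 ∨ i = 15 ∨ i = 18 ∨ i = 20 ∨ i = 22 →
      τ i = σ i) : BFS e κ τ :=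
  ⟨by rw [h1 0 (by omega), h.ep], by rw [h1 4 (by omega), h.b], by rw [h1 6 (by omega), h.h],
    by rw [h1 8 (by omega), h.E], by rw [h1 9 (by omega), h.Ei], by rw [h1 15 (by omega), h.h2],
    by rw [h1 18 (by omega), h.Ke], by rw [h1 20 (by omega), h.Ke2], by rw [h1 22 (by omega), h.one]⟩

theorem SC_real (x : ℝ) : SC (x : ℂ) = if x = 0 then 1 else ((Real.sinh x / x : ℝ) : ℂ) := by
  by_cases h : x = 0
  · rw [if_pos h, h]
    unfold SC E1F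
    simp
  · rw [if_neg h]
    have hc : (x : ℂ) ≠ 0 := by exact_mod_cast h
    have h1 := mul_SC (x : ℂ)
    have h2 : SC (x : ℂ) = sinh (x : ℂ) / (x : ℂ) := by
      rw [← h1]
      field_simp
    rw [h2]
    push_cast
    rfl

/-- **The common part.** -/
theorem basS_spec {t : TD} {e κ : ℝ} (he : 0 < e) {σ : ℕ → ℂ} {Q : (ℕ → ℂ) → Prop}
    (h0 : σ 0 = ((1 / e : ℝ) : ℂ)) (hb : (bS t).ev (upd σ 22 1) = ((e * κ / 2 : ℝ) : ℂ))
    (h : Sem (basS t) σ Q) : ∃ τ, Q τ ∧ BFS e κ τ ∧ τ 2 = σ 2 ∧ τ 3 = σ 3 := by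
  have he0 : (e : ℂ) ≠ 0 := by exact_mod_cast he.ne'
  obtain ⟨-, h⟩ := sem_set h (x := 1) one_val
  obtain ⟨-, h⟩ := sem_set h hb
  obtain ⟨-, h⟩ := sem_set h (x := ((κ / 2 : ℝ) : ℂ)) (by
    simp [E.ev, upd, h0]
    field_simp)
  obtain ⟨-, h⟩ := sem_set h (x := (Real.exp (κ / 2) : ℂ)) (by simp [E.ev, upd])
  obtain ⟨-, h⟩ := sem_set h (x := (Real.exp (-(κ / 2)) : ℂ)) (by simp [E.ev, upd])
  obtain ⟨-, h⟩ := sem_set h (x := ((κ / 2 : ℝ) : ℂ) ^ 2) (by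
    simp [E.ev, upd]
    ring)
  obtain ⟨-, hlt, h⟩ := h
  rw [show E.ev (upd (upd (upd (upd (upd (upd σ 22 1) 4 ((e * κ / 2 : ℝ) : ℂ)) 6 ((κ / 2 : ℝ) : ℂ))
    8 (Real.exp (κ / 2) : ℂ)) 9 (Real.exp (-(κ / 2)) : ℂ)) 15 (((κ / 2 : ℝ) : ℂ) ^ 2)) (.r 15) =
      ((κ / 2 : ℝ) : ℂ) ^ 2 from upd_same _ _] at hlt
  have h := h.2.2 (SC ((κ / 2 : ℝ) : ℂ)) (SC_mem (upd_same _ _) rfl hlt)
  obtain ⟨-, h⟩ := sem_set h (x := (Real.sinh κ : ℂ) * e) (by
    simp only [E.ev, upd]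
    simp [half_val, two_val]
    have h1 := mul_SC ((κ / 2 : ℝ) : ℂ)
    have h2 : Real.sinh κ = 2 * Real.sinh (κ / 2) * Real.cosh (κ / 2) := by
      rw [← Real.sinh_two_mul]
      congr 1
      ring
    have h3 := congrArg (fun x : ℝ => (x : ℂ)) h2
    push_cast at h1 h3
    rw [h3, ← h1, Complex.cosh]
    ring)
  obtain ⟨-, h⟩ := sem_set h (x := ((Real.sinh κ : ℂ) * e) ^ 2) (by
    simp [E.ev, upd]
    ring)
  refine ⟨_, h, ⟨?_, ?_, ?_, ?_, ?_, ?_, ?_, ?_, ?_⟩, ?_, ?_⟩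
  · simp [upd, h0]
  · simp [upd]
  · simp [upd]
  · simp [upd]
  · simp [upd]
  · simp [upd]
  · simp [upd]
  · simp [upd]
  · simp [upd]
  · simp [upd]
  · simp [upd]

/-! ### The radius -/

/-- the radius before the near node `n` (number `1`: the first near node) -/
noncomputable def RS (t : TD) (n : ℕ) (e κ : ℝ) : ℝ := kk κ ^ n * (1 + Real.sinh κ * t.sR n e κ)

/-- `exp (-κ) (1 + k + ... + k^(n-1))` -/
noncomputable def gq (κ : ℝ) (n : ℕ) : ℝ := Real.exp (-κ) * ∑ j ∈ Finset.range n, kk κ ^ j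

theorem kk_sq (κ : ℝ) : (Real.exp (-κ) : ℂ) ^ 2 = (kk κ : ℂ) := by
  unfold kk
  rw [← ofReal_pow, ← Real.exp_nat_mul]
  congr 2
  push_cast
  ring

theorem gq_eq {κ : ℝ} (n : ℕ) : 2 * Real.sinh κ * gq κ n = 1 - kk κ ^ n := by
  have h1 : 2 * Real.sinh κ * Real.exp (-κ) = 1 - kk κ := by
    rw [Real.sinh_eq]
    have h2 : Real.exp κ * Real.exp (-κ) = 1 := by rw [← Real.exp_add, add_neg_cancel, Real.exp_zero]
    have h3 : Real.exp (-κ) * Real.exp (-κ) = kk κ := by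
      unfold kk
      rw [← Real.exp_add]
      congr 1
      ring
    linear_combination h2 - h3
  have h2 := mul_neg_geom_sum (kk κ) n
  unfold gq
  rw [← h2, ← h1]
  ring

theorem rho_eq {t : TD} {n : ℕ} {e κ : ℝ} (hκ : 0 < κ) :
    2 * gq κ n - t.sR n e κ * kk κ ^ n = (1 - RS t n e κ) / Real.sinh κ := by
  have hK := Real.sinh_pos_iff.2 hκ
  rw [eq_div_iff hK.ne']
  unfold RS
  linear_combination gq_eq (κ := κ) n

theorem RS_succ (t : TD) (n : ℕ) (e κ : ℝ) :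
    RS t (n + 1) e κ = kk κ * RS t n e κ + dS t n e κ := by
  unfold RS dS TD.sR
  rw [Finset.sum_range_succ]
  ring

theorem RS_zero (t : TD) (e κ : ℝ) : RS t 0 e κ = 1 := by
  simp [RS, TD.sR]

theorem add1_ev (z : ℂ) : ∀ l m : List ℤ, horn ((add1 l m).map cv) z =
    horn (l.map cv) z + horn (m.map cv) z := by
  intro l
  induction l with
  | nil =>
    intro m
    cases m with
    | nil => exact (zero_add _).symm
    | cons b m => exact (zero_add _).symm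
  | cons a l ih =>
    intro m
    cases m with
    | nil => exact (add_zero _).symm
    | cons b m =>
      show horn (cv (a + b) :: (add1 l m).map cv) z = _
      rw [horn_cons, ih, List.map_cons, List.map_cons, horn_cons, horn_cons, cv_add]
      ring

theorem add2_ev (u v : ℂ) : ∀ l m : List (List ℤ), P2 (c2 (add2 l m)) u v =
    P2 (c2 l) u v + P2 (c2 m) u v := by
  have key : ∀ (a : List ℤ) (l : List (List ℤ)), P2 (c2 (a :: l)) u v =
      P2 (c2 l) u v * u + horn (a.map cv) v := by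
    intro a l
    unfold P2 c2
    rw [List.map_cons, List.map_cons, horn_cons]
  have k0 : P2 (c2 []) u v = 0 := rfl
  intro l
  induction l with
  | nil =>
    intro m
    rw [k0, zero_add]
    cases m with
    | nil => rfl
    | cons b m => rfl
  | cons a l ih =>
    intro m
    cases m with
    | nil =>
      rw [k0, add_zero]
      rfl
    | cons b m =>
      show P2 (c2 (add1 a b :: add2 l m)) u v = _
      rw [key, key, key, ih, add1_ev]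
      ring

theorem sumT_ev (t : TD) (e κ : ℝ) : ∀ n : ℕ,
    P2 (c2 (sumT t n)) (t.tb.de e) (t.tb.db e κ) = (t.sR n e κ : ℂ) := by
  intro n
  induction n with
  | zero =>
    unfold TD.sR
    rw [Finset.range_zero, Finset.sum_empty]
    exact ofReal_zero.symm
  | succ n ih =>
    show P2 (c2 (add2 (sumT t n) (nth [] t.t n))) _ _ = _
    rw [add2_ev, ih]
    have h1 : P2 (c2 (nth [] t.t n)) (t.tb.de e) (t.tb.db e κ) = (t.tR n e κ : ℂ) := t.tR_eq n e κ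
    rw [h1]
    unfold TD.sR
    rw [Finset.sum_range_succ]
    push_cast
    rfl

theorem geo_succ (k : ℂ) (n : ℕ) :
    ∑ j ∈ Finset.range (n + 1), k ^ j = k * ∑ j ∈ Finset.range n, k ^ j + 1 := by
  rw [Finset.sum_range_succ', Finset.mul_sum, pow_zero]
  congr 1
  apply Finset.sum_congr rfl
  intro j _
  ring

theorem gS_ev {σ : ℕ → ℂ} {k : ℂ} (h12 : σ 12 = k) (h22 : σ 22 = 1) : ∀ n : ℕ,
    (gS n).ev σ = ∑ j ∈ Finset.range n, k ^ j
  | 0 => by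
    rw [Finset.range_zero, Finset.sum_empty]
    show (zi 0).val = 0
    rw [zi_val, cv_zero]
  | 1 => by
    rw [Finset.sum_range_one, pow_zero]
    exact one_val
  | 2 => by
    rw [geo_succ, Finset.sum_range_one, pow_zero, mul_one]
    show (zi 1099511627776).val * σ 12 + σ 22 = _
    rw [one_val, one_mul, h12, h22]
  | n + 3 => by
    rw [geo_succ]
    show σ 12 * (gS (n + 2)).ev σ + σ 22 = _
    rw [gS_ev h12 h22 (n + 2), h12, h22]

theorem qS_ev {σ : ℕ → ℂ} {κ : ℝ} (h11 : σ 11 = (Real.exp (-κ) : ℂ)) (h12 : σ 12 = (kk κ : ℂ))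
    (h22 : σ 22 = 1) (n : ℕ) : (qS n).ev σ = (gq κ n : ℂ) := by
  have h : (gq κ n : ℂ) = (Real.exp (-κ) : ℂ) * ∑ j ∈ Finset.range n, (kk κ : ℂ) ^ j := by
    unfold gq
    push_cast
    rfl
  rw [h]
  match n with
  | 0 =>
    rw [Finset.range_zero, Finset.sum_empty, mul_zero]
    show (zi 0).val = 0
    rw [zi_val, cv_zero]
  | 1 =>
    rw [Finset.sum_range_one, pow_zero, mul_one]
    exact h11
  | n + 2 =>
    show σ 11 * (gS (n + 2)).ev σ = _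
    rw [gS_ev h12 h22, h11]

/-- the registers of the radius -/
structure GFS (t : TD) (n : ℕ) (e κ : ℝ) (σ : ℕ → ℂ) : Prop where
  qi : σ 11 = (Real.exp (-κ) : ℂ)
  s : σ 19 = (t.sR n e κ : ℂ)
  R : σ 23 = (RS t n e κ : ℂ)
  rho : σ 24 = (((1 - RS t n e κ) / Real.sinh κ : ℝ) : ℂ)

/-- the last part of `geS` -/
def geS2 (t : TD) (n : ℕ) : List St :=
  [St.set 11 ((E.r 9).mul (E.r 9)), St.set 12 ((E.r 11).mul (E.r 11)),
      St.set 21 (E.sc (zn (4 * n)) (E.r 6)).neg.exp, St.set 19 (q2E t.Lt 0 (sumT t n)),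
      St.set 23 ((E.r 21).mul ((((E.r 0).mul (E.r 18)).mul (E.r 19)).add (E.r 22))),
      St.set 24 ((E.sc two (qS n)).sub ((E.r 19).mul (E.r 21)))]

theorem geS2_spec {t : TD} {n : ℕ} {e κ : ℝ} (he : 0 < e) (hκ : 0 < κ) {σ : ℕ → ℂ}
    {Q : (ℕ → ℂ) → Prop} (hB : BFS e κ σ) (hM : MI t.Lt (t.tb.de e) (t.tb.db e κ) σ)
    (h : Sem (geS2 t n) σ Q) : ∃ τ, Q τ ∧ BFS e κ τ ∧ GFS t n e κ τ ∧
      (∀ i, i ≠ 11 ∧ i ≠ 12 ∧ i ≠ 21 ∧ i ≠ 19 ∧ i ≠ 23 ∧ i ≠ 24 → τ i = σ i) := by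
  have he0 : (e : ℂ) ≠ 0 := by exact_mod_cast he.ne'
  obtain ⟨-, h⟩ := sem_set h (x := (Real.exp (-κ) : ℂ)) (by
    show σ 9 * σ 9 = _
    rw [hB.Ei, ← ofReal_mul, ← Real.exp_add]
    congr 2
    ring)
  obtain ⟨-, h⟩ := sem_set h (x := (kk κ : ℂ)) (by
    show upd σ 11 _ 11 * upd σ 11 _ 11 = _
    rw [upd_same, ← kk_sq]
    ring)
  obtain ⟨-, h⟩ := sem_set h (x := ((kk κ ^ n : ℝ) : ℂ)) (by
    show Complex.exp (-((zn (4 * n)).val * upd (upd σ 11 _) 12 _ 6)) = _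
    rw [upd_ne (by omega), upd_ne (by omega), hB.h, zn_val]
    unfold kk
    rw [← Real.exp_nat_mul]
    push_cast
    congr 1
    ring)
  obtain ⟨-, h⟩ := sem_set h (x := (t.sR n e κ : ℂ)) (by
    rw [q2E_ev0 (u := t.tb.de e) (v := t.tb.db e κ)]
    · exact sumT_ev t e κ n
    · refine ⟨?_, ?_, ?_⟩
      · rw [upd_ne (mreg_ne_lt (by omega)).symm, upd_ne (mreg_ne_lt (by omega)).symm,
          upd_ne (mreg_ne_lt (by omega)).symm, hM.hu]
      · rw [upd_ne (mreg_ne_lt (by omega)).symm, upd_ne (mreg_ne_lt (by omega)).symm,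
          upd_ne (mreg_ne_lt (by omega)).symm, hM.hv]
      · intro i j hij
        rw [upd_ne (mreg_ne_lt (by omega)).symm, upd_ne (mreg_ne_lt (by omega)).symm,
          upd_ne (mreg_ne_lt (by omega)).symm, hM.hm i j hij])
  obtain ⟨-, h⟩ := sem_set h (x := (RS t n e κ : ℂ)) (by
    simp only [E.ev, upd, Nat.reduceEqDiff, reduceIte]
    rw [hB.ep, hB.Ke, hB.one]
    unfold RS
    push_cast
    field_simp
    ring)
  obtain ⟨-, h⟩ := sem_set h (x := (((1 - RS t n e κ) / Real.sinh κ : ℝ) : ℂ)) (by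
    rw [← rho_eq hκ]
    show two.val * (qS n).ev _ - upd _ 23 _ 19 * upd _ 23 _ 21 = _
    rw [qS_ev (κ := κ)]
    · simp only [upd, Nat.reduceEqDiff, reduceIte]
      rw [two_val]
      push_cast
      ring
    · simp [upd]
    · simp [upd]
    · simp [upd, hB.one])
  refine ⟨_, h, ?_, ⟨?_, ?_, ?_, ?_⟩, ?_⟩
  · exact hB.of_eq fun i hi => by
      rw [upd_ne (by omega), upd_ne (by omega), upd_ne (by omega), upd_ne (by omega),
        upd_ne (by omega), upd_ne (by omega)]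
  · simp [upd]
  · simp [upd]
  · simp [upd]
  · simp [upd]
  · rintro i ⟨h1, h2, h3, h4, h5, h6⟩
    rw [upd_ne h6, upd_ne h5, upd_ne h4, upd_ne h3, upd_ne h2, upd_ne h1]

/-- the monomials -/
theorem mon_spec {t : TD} {e κ : ℝ} {σ : ℕ → ℂ} {Q : (ℕ → ℂ) → Prop} {L : List (ℕ × ℕ)}
    (hB : BFS e κ σ)
    (h : Sem ([St.set (mreg 1 0) ((E.r 0).sub (E.c (zi t.ec))),
        St.set (mreg 0 1) (bif t.bc == 0 then E.r 4 else (E.r 4).sub (E.c (zi t.bc)))] ++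
      monos [] L) σ Q) : ∃ τ, Q τ ∧ BFS e κ τ ∧ MI L (t.tb.de e) (t.tb.db e κ) τ ∧
      ∀ i, i < 128 → τ i = σ i := by
  obtain ⟨-, h⟩ := sem_set h (x := t.tb.de e) (by
    show σ 0 - (zi t.ec).val = _
    rw [hB.ep, zi_val]
    rfl)
  have hm10 : ∀ i, i < 128 → i ≠ mreg 1 0 := fun i hi => mreg_ne_lt hi
  have hm01 : ∀ i, i < 128 → i ≠ mreg 0 1 := fun i hi => mreg_ne_lt hi
  obtain ⟨-, h⟩ := sem_set h (x := t.tb.db e κ) (by
    by_cases hbc : t.bc = 0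
    · have h1 : (t.bc == 0) = true := by simpa using hbc
      rw [h1, cond_true]
      show upd _ _ _ 4 = _
      rw [upd_ne (hm10 4 (by omega)), hB.b]
      simp [Tb.db, TD.tb, hbc, cv_zero]
    · have h1 : (t.bc == 0) = false := by simpa using hbc
      rw [h1, cond_false]
      show upd _ _ _ 4 - (zi t.bc).val = _
      rw [upd_ne (hm10 4 (by omega)), hB.b, zi_val]
      rfl)
  obtain ⟨τ, hQ, hM, hτ⟩ := sem_monos' (u := t.tb.de e) (v := t.tb.db e κ)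
    (by rw [upd_ne (by intro hh; have := mreg_inj hh; omega), upd_same]) (upd_same _ _) h
  have key : ∀ i, i < 128 → τ i = σ i := fun i hi => by
    rw [hτ i (fun a b => mreg_ne_lt hi), upd_ne (hm01 i hi), upd_ne (hm10 i hi)]
  exact ⟨τ, hQ, hB.of_eq fun i hi => key i (by omega), hM, key⟩

/-- **The radius.** -/
theorem geS_spec {t : TD} {n : ℕ} {e κ : ℝ} (he : 0 < e) (hκ : 0 < κ) {σ : ℕ → ℂ}
    {Q : (ℕ → ℂ) → Prop} (hB : BFS e κ σ) (h : Sem (geS t n) σ Q) :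
    ∃ τ, Q τ ∧ BFS e κ τ ∧ GFS t n e κ τ ∧
      (∀ i, i < 128 → i ≠ 11 ∧ i ≠ 12 ∧ i ≠ 21 ∧ i ≠ 19 ∧ i ≠ 23 ∧ i ≠ 24 → τ i = σ i) := by
  have h1 : Sem (([St.set (mreg 1 0) ((E.r 0).sub (E.c (zi t.ec))),
        St.set (mreg 0 1) (bif t.bc == 0 then E.r 4 else (E.r 4).sub (E.c (zi t.bc)))] ++
      monos [] t.Lt) ++ geS2 t n) σ Q := h
  have h2 := sem_append _ _ _ h1
  obtain ⟨σ1, h3, hB1, hM, k1⟩ := mon_spec (L := t.Lt) hB h2
  obtain ⟨τ, hQ, hB2, hG, k2⟩ := geS2_spec he hκ hB1 hM h3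
  exact ⟨τ, hQ, hB2, hG, fun i hi hi2 => by rw [k2 i hi2, k1 i hi]⟩

end Pool.Agent.helper4.NS
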