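import Pool.Agent.helper17.NS.SpecCh
import Pool.Agent.helper14.NS.Cert

/-!
# The charts and the alternatives, state `T/ε`

`U = T e`, `K' = sinh κ e`, `ρ' = (1 - R)/K'`.
-/

namespace Pool.Agent.helper4.NS

open Complex ComplexConjugate
open Pool.Agent.helper31.IA (Z get)
open Pool.Agent.helper12.RS
open Pool.Agent.helper63.NF

/-- `sinh κ e` -/
noncomputable def Kq (e κ : ℝ) : ℝ := Real.sinh κ * e

/-- `(1 - R)/(sinh κ e)` -/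
noncomputable def rq (t : TD) (n : ℕ) (e κ : ℝ) : ℝ := (1 - RS t n e κ) / Kq e κ

theorem Kq_pos {e κ : ℝ} (he : 0 < e) (hκ : 0 < κ) : 0 < Kq e κ :=
  mul_pos (Real.sinh_pos_iff.2 hκ) he

theorem BFS.Ke2' {e κ : ℝ} {σ : ℕ → ℂ} (h : BFS e κ σ) :
    σ 20 = ((Kq e κ : ℝ) : ℂ) * ((Kq e κ : ℝ) : ℂ) := by
  rw [h.Ke2]
  unfold Kq
  push_cast
  ring

theorem rq_eq {t : TD} {n : ℕ} {e κ : ℝ} {σ : ℕ → ℂ} (hB : BFS e κ σ) (hG : GFS t n e κ σ) :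
    σ 0 * σ 24 = ((rq t n e κ : ℝ) : ℂ) := by
  rw [hB.ep, hG.rho, ← ofReal_mul]
  congr 1
  unfold rq Kq
  rw [div_mul_div_comm, one_mul, mul_comm e]

/-! ### The circle -/

def cA3 : List St :=
  [St.set 26 ((E.r 0).mul (E.r 24)), St.set 27 ((E.r 23).add (E.r 22)), St.set 28 ((E.r 26).mul (E.r 20)),
      St.set 5
        (((E.r 28).add (E.sc zI ((E.r 27).mul (E.r 2)))).mul
          ((E.r 27).add (E.sc zI ((E.r 26).mul (E.r 2)))).inv)]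

def cB3 : List St :=
  [St.set 26 ((E.r 0).mul (E.r 24)), St.set 27 ((E.r 23).add (E.r 22)), St.set 28 ((E.r 26).mul (E.r 20)),
      St.set 5
        ((((E.r 28).mul (E.r 2)).add (E.sc zI (E.r 27))).mul
          (((E.r 27).mul (E.r 2)).add (E.sc zI (E.r 26))).inv)]

theorem cA_eq (t : TD) (n : ℕ) (A : List St) : cA t n ++ A = basS t ++ (geS t n ++ (cA3 ++ A)) := by
  unfold cA cA3
  simp only [List.append_assoc]

theorem cB_eq (t : TD) (n : ℕ) (A : List St) : cB t n ++ A = basS t ++ (geS t n ++ (cB3 ++ A)) := by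
  unfold cB cB3
  simp only [List.append_assoc]

/-- the hypotheses on the inputs -/
structure INS (t : TD) (e κ s : ℝ) (x : ℂ) (σ : ℕ → ℂ) : Prop where
  ep : σ 0 = ((1 / e : ℝ) : ℂ)
  b : (bS t).ev (upd σ 22 1) = ((e * κ / 2 : ℝ) : ℂ)
  s : σ 2 = (s : ℂ)
  x : σ 3 = x

/-- **Chart A.** -/
theorem cA_spec {t : TD} {n : ℕ} {e κ s : ℝ} {x : ℂ} (he : 0 < e) (hκ : 0 < κ) {σ : ℕ → ℂ}
    {Q : (ℕ → ℂ) → Prop} {A : List St} (hI : INS t e κ s x σ) {U : ℂ}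
    (hU : U * ((1 + (RS t n e κ : ℂ)) + I * (((1 : ℝ) : ℂ) * (s : ℂ)) *
        (((1 - RS t n e κ) / Kq e κ : ℝ) : ℂ)) =
      (Kq e κ : ℂ) * (Kq e κ : ℂ) * (((1 - RS t n e κ) / Kq e κ : ℝ) : ℂ) +
        I * (((1 : ℝ) : ℂ) * (s : ℂ)) * (1 + (RS t n e κ : ℂ)))
    (h : Sem (cA t n ++ A) σ Q) : ∃ τ, Sem A τ Q ∧ BFS e κ τ ∧ GFS t n e κ τ ∧ τ 3 = x ∧ τ 5 = U := by
  rw [cA_eq] at h
  have h := sem_append _ _ _ h
  obtain ⟨σ1, h, hB, k2, k3⟩ := basS_spec he hI.ep hI.b h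
  have h := sem_append _ _ _ h
  obtain ⟨σ2, h, hB, hG, k⟩ := geS_spec he hκ hB h
  have e2 : σ2 2 = (s : ℂ) := by rw [k 2 (by omega) (by omega), k2, hI.s]
  have e3 : σ2 3 = x := by rw [k 3 (by omega) (by omega), k3, hI.x]
  obtain ⟨-, h⟩ := sem_set h (x := (rq t n e κ : ℂ)) (rq_eq hB hG)
  obtain ⟨-, h⟩ := sem_set h (x := (RS t n e κ : ℂ) + 1) (by
    show upd σ2 26 _ 23 + upd σ2 26 _ 22 = _
    rw [upd_ne (by omega), upd_ne (by omega), hG.R, hB.one])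
  obtain ⟨-, h⟩ := sem_set h (x := (rq t n e κ : ℂ) * ((Kq e κ : ℂ) * (Kq e κ : ℂ))) (by
    show upd (upd σ2 26 _) 27 _ 26 * upd (upd σ2 26 _) 27 _ 20 = _
    rw [upd_ne (by omega), upd_same, upd_ne (by omega), upd_ne (by omega), hB.Ke2'])
  obtain ⟨r, hr⟩ : ∃ r, r = rq t n e κ := ⟨_, rfl⟩
  obtain ⟨K, hK⟩ : ∃ K, K = Kq e κ := ⟨_, rfl⟩
  obtain ⟨R, hR⟩ : ∃ R, R = RS t n e κ := ⟨_, rfl⟩
  have hr' : (1 - RS t n e κ) / Kq e κ = r := hr.symm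
  rw [hr', ← hK, ← hR] at hU
  rw [← hr, ← hR, ← hK] at h
  have e27 : ∀ y : ℂ, upd (upd (upd σ2 26 (r : ℂ)) 27 ((R : ℂ) + 1)) 28 y 27 = (R : ℂ) + 1 :=
    fun y => by rw [upd_ne (by omega), upd_same]
  have e26 : ∀ y : ℂ, upd (upd (upd σ2 26 (r : ℂ)) 27 ((R : ℂ) + 1)) 28 y 26 = (r : ℂ) :=
    fun y => by rw [upd_ne (by omega), upd_ne (by omega), upd_same]
  have e2' : ∀ y : ℂ, upd (upd (upd σ2 26 (r : ℂ)) 27 ((R : ℂ) + 1)) 28 y 2 = (s : ℂ) :=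
    fun y => by rw [upd_ne (by omega), upd_ne (by omega), upd_ne (by omega), e2]
  have hne : (R : ℂ) + 1 + I * ((r : ℂ) * (s : ℂ)) ≠ 0 := by
    have h6 := h.1.2.2
    intro h7
    apply h6
    show upd _ 28 _ 27 + zI.val * (upd _ 28 _ 26 * upd _ 28 _ 2) = 0
    rw [e27, e26, e2', zI_val]
    exact h7
  obtain ⟨-, h⟩ := sem_set h (x := U) (by
    show (upd _ 28 _ 28 + zI.val * (upd _ 28 _ 27 * upd _ 28 _ 2)) *
      (upd _ 28 _ 27 + zI.val * (upd _ 28 _ 26 * upd _ 28 _ 2))⁻¹ = _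
    rw [e27, e26, e2', zI_val, upd_same, mul_inv_eq_iff_eq_mul₀ hne]
    push_cast at hU
    linear_combination -hU)
  refine ⟨_, h, hB.of_eq fun i hi => ?_, ⟨?_, ?_, ?_, ?_⟩, ?_, upd_same _ _⟩
  · rw [upd_ne (by omega), upd_ne (by omega), upd_ne (by omega), upd_ne (by omega)]
  · rw [upd_ne (by omega), upd_ne (by omega), upd_ne (by omega), upd_ne (by omega), hG.qi]
  · rw [upd_ne (by omega), upd_ne (by omega), upd_ne (by omega), upd_ne (by omega), hG.s]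
  · rw [upd_ne (by omega), upd_ne (by omega), upd_ne (by omega), upd_ne (by omega), hG.R]
  · rw [upd_ne (by omega), upd_ne (by omega), upd_ne (by omega), upd_ne (by omega), hG.rho]
  · rw [upd_ne (by omega), upd_ne (by omega), upd_ne (by omega), upd_ne (by omega), e3]

/-- **Chart B.** -/
theorem cB_spec {t : TD} {n : ℕ} {e κ s : ℝ} {x : ℂ} (he : 0 < e) (hκ : 0 < κ) {σ : ℕ → ℂ}
    {Q : (ℕ → ℂ) → Prop} {A : List St} (hI : INS t e κ s x σ) {U : ℂ}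
    (hU : U * ((1 + (RS t n e κ : ℂ)) * (s : ℂ) + I * (((1 : ℝ) : ℂ) *
        (((1 - RS t n e κ) / Kq e κ : ℝ) : ℂ))) =
      (Kq e κ : ℂ) * (Kq e κ : ℂ) * (((1 - RS t n e κ) / Kq e κ : ℝ) : ℂ) * (s : ℂ) +
        I * (((1 : ℝ) : ℂ) * (1 + (RS t n e κ : ℂ))))
    (h : Sem (cB t n ++ A) σ Q) : ∃ τ, Sem A τ Q ∧ BFS e κ τ ∧ GFS t n e κ τ ∧ τ 3 = x ∧ τ 5 = U := by
  rw [cB_eq] at h
  have h := sem_append _ _ _ h
  obtain ⟨σ1, h, hB, k2, k3⟩ := basS_spec he hI.ep hI.b h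
  have h := sem_append _ _ _ h
  obtain ⟨σ2, h, hB, hG, k⟩ := geS_spec he hκ hB h
  have e2 : σ2 2 = (s : ℂ) := by rw [k 2 (by omega) (by omega), k2, hI.s]
  have e3 : σ2 3 = x := by rw [k 3 (by omega) (by omega), k3, hI.x]
  obtain ⟨-, h⟩ := sem_set h (x := (rq t n e κ : ℂ)) (rq_eq hB hG)
  obtain ⟨-, h⟩ := sem_set h (x := (RS t n e κ : ℂ) + 1) (by
    show upd σ2 26 _ 23 + upd σ2 26 _ 22 = _
    rw [upd_ne (by omega), upd_ne (by omega), hG.R, hB.one])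
  obtain ⟨-, h⟩ := sem_set h (x := (rq t n e κ : ℂ) * ((Kq e κ : ℂ) * (Kq e κ : ℂ))) (by
    show upd (upd σ2 26 _) 27 _ 26 * upd (upd σ2 26 _) 27 _ 20 = _
    rw [upd_ne (by omega), upd_same, upd_ne (by omega), upd_ne (by omega), hB.Ke2'])
  obtain ⟨r, hr⟩ : ∃ r, r = rq t n e κ := ⟨_, rfl⟩
  obtain ⟨K, hK⟩ : ∃ K, K = Kq e κ := ⟨_, rfl⟩
  obtain ⟨R, hR⟩ : ∃ R, R = RS t n e κ := ⟨_, rfl⟩
  have hr' : (1 - RS t n e κ) / Kq e κ = r := hr.symm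
  rw [hr', ← hK, ← hR] at hU
  rw [← hr, ← hR, ← hK] at h
  have e27 : ∀ y : ℂ, upd (upd (upd σ2 26 (r : ℂ)) 27 ((R : ℂ) + 1)) 28 y 27 = (R : ℂ) + 1 :=
    fun y => by rw [upd_ne (by omega), upd_same]
  have e26 : ∀ y : ℂ, upd (upd (upd σ2 26 (r : ℂ)) 27 ((R : ℂ) + 1)) 28 y 26 = (r : ℂ) :=
    fun y => by rw [upd_ne (by omega), upd_ne (by omega), upd_same]
  have e2' : ∀ y : ℂ, upd (upd (upd σ2 26 (r : ℂ)) 27 ((R : ℂ) + 1)) 28 y 2 = (s : ℂ) :=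
    fun y => by rw [upd_ne (by omega), upd_ne (by omega), upd_ne (by omega), e2]
  have hne : ((R : ℂ) + 1) * (s : ℂ) + I * (r : ℂ) ≠ 0 := by
    have h6 := h.1.2.2
    intro h7
    apply h6
    show upd _ 28 _ 27 * upd _ 28 _ 2 + zI.val * upd _ 28 _ 26 = 0
    rw [e27, e26, e2', zI_val]
    exact h7
  obtain ⟨-, h⟩ := sem_set h (x := U) (by
    show (upd _ 28 _ 28 * upd _ 28 _ 2 + zI.val * upd _ 28 _ 27) *
      (upd _ 28 _ 27 * upd _ 28 _ 2 + zI.val * upd _ 28 _ 26)⁻¹ = _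
    rw [e27, e26, e2', zI_val, upd_same, mul_inv_eq_iff_eq_mul₀ hne]
    push_cast at hU
    linear_combination -hU)
  refine ⟨_, h, hB.of_eq fun i hi => ?_, ⟨?_, ?_, ?_, ?_⟩, ?_, upd_same _ _⟩
  · rw [upd_ne (by omega), upd_ne (by omega), upd_ne (by omega), upd_ne (by omega)]
  · rw [upd_ne (by omega), upd_ne (by omega), upd_ne (by omega), upd_ne (by omega), hG.qi]
  · rw [upd_ne (by omega), upd_ne (by omega), upd_ne (by omega), upd_ne (by omega), hG.s]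
  · rw [upd_ne (by omega), upd_ne (by omega), upd_ne (by omega), upd_ne (by omega), hG.R]
  · rw [upd_ne (by omega), upd_ne (by omega), upd_ne (by omega), upd_ne (by omega), hG.rho]
  · rw [upd_ne (by omega), upd_ne (by omega), upd_ne (by omega), upd_ne (by omega), e3]

/-! ### The inner arc -/

/-- **Chart C.** -/
theorem cC_spec {t : TD} {e κ s : ℝ} {x : ℂ} (he : 0 < e) {σ : ℕ → ℂ}
    {Q : (ℕ → ℂ) → Prop} {A : List St} (hI : INS t e κ s x σ)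
    (h : Sem (cC t ++ A) σ Q) : ∃ τ, Sem A τ Q ∧ BFS e κ τ ∧ τ 3 = x ∧
      τ 5 = (rv t.s1 : ℂ) * ((I * (s : ℂ) + 1) * (1 - I * (s : ℂ))⁻¹) := by
  unfold cC at h
  rw [List.append_assoc] at h
  have h := sem_append _ _ _ h
  obtain ⟨σ1, h, hB, k2, k3⟩ := basS_spec he hI.ep hI.b h
  obtain ⟨-, h⟩ := sem_set h (x := I * (s : ℂ)) (by
    show zI.val * σ1 2 = _
    rw [zI_val, k2, hI.s])
  obtain ⟨-, h⟩ := sem_set h (x := (rv t.s1 : ℂ) * ((I * (s : ℂ) + 1) * (1 - I * (s : ℂ))⁻¹)) (by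
    show (zi t.s1).val * ((upd σ1 29 _ 29 + upd σ1 29 _ 22) *
      (upd σ1 29 _ 22 - upd σ1 29 _ 29)⁻¹) = _
    rw [upd_same, upd_ne (by omega), hB.one, zi_val, cv_rv])
  refine ⟨_, h, hB.of_eq fun i hi => ?_, ?_, upd_same _ _⟩
  · rw [upd_ne (by omega), upd_ne (by omega)]
  · rw [upd_ne (by omega), upd_ne (by omega), k3, hI.x]

/-! ### The outer arc -/

/-- `(K e)² + Y` -/
noncomputable def Bq (t : TD) (n : ℕ) (e κ : ℝ) : ℝ := Kq e κ ^ 2 + rv (nth 0 t.y (n - 1))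

theorem BS_spec {t : TD} {n : ℕ} {e κ : ℝ} {σ : ℕ → ℂ} {Q : (ℕ → ℂ) → Prop} (hB : BFS e κ σ)
    (h : Sem (BS t n) σ Q) : ∃ τ, Q τ ∧ BFS e κ τ ∧ τ 30 = (Bq t n e κ : ℂ) ∧
      ∀ i, i ≠ 30 → τ i = σ i := by
  obtain ⟨-, h⟩ := sem_set h (x := (Bq t n e κ : ℂ)) (by
    show σ 20 + (zi _).val = _
    rw [hB.Ke2, zi_val, cv_rv]
    unfold Bq Kq
    push_cast
    rfl)
  exact ⟨_, h, hB.of_eq fun i hi => upd_ne (by omega) _, upd_same _ _, fun i hi => upd_ne hi _⟩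

/-- **Chart D.** -/
theorem cD_spec {t : TD} {n : ℕ} {e κ s : ℝ} {x : ℂ} (he : 0 < e) {σ : ℕ → ℂ}
    {Q : (ℕ → ℂ) → Prop} {A : List St} (hI : INS t e κ s x σ)
    (h : Sem (cD t n ++ A) σ Q) : ∃ τ, Sem A τ Q ∧ BFS e κ τ ∧ τ 3 = x ∧
      (Kq e κ : ℂ) ^ 2 + (Bq t n e κ : ℂ) * exp (I * (s : ℂ)) ∈ slitPlane ∧
      τ 5 = exp (1 / 2 * log ((Kq e κ : ℂ) ^ 2 + (Bq t n e κ : ℂ) * exp (I * (s : ℂ)))) := by
  unfold cD at h
  rw [List.append_assoc, List.append_assoc] at h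
  have h := sem_append _ _ _ h
  obtain ⟨σ1, h, hB, k2, k3⟩ := basS_spec he hI.ep hI.b h
  have h := sem_append _ _ _ h
  obtain ⟨σ2, h, hB, k30, k⟩ := BS_spec hB h
  have e2 : σ2 2 = (s : ℂ) := by rw [k 2 (by omega), k2, hI.s]
  have e3 : σ2 3 = x := by rw [k 3 (by omega), k3, hI.x]
  have e20 : σ2 20 = (Kq e κ : ℂ) ^ 2 := by rw [hB.Ke2', sq]
  have hz : E.ev σ2 ((E.r 20).add ((E.r 30).mul (E.sc zI (E.r 2)).exp)) =
      (Kq e κ : ℂ) ^ 2 + (Bq t n e κ : ℂ) * exp (I * (s : ℂ)) := by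
    show σ2 20 + σ2 30 * exp (zI.val * σ2 2) = _
    rw [e20, k30, e2, zI_val]
  have hs : (Kq e κ : ℂ) ^ 2 + (Bq t n e κ : ℂ) * exp (I * (s : ℂ)) ∈ slitPlane := by
    have := h.1.2
    rwa [hz] at this
  obtain ⟨-, h⟩ := sem_set h (x := exp (1 / 2 * log ((Kq e κ : ℂ) ^ 2 +
      (Bq t n e κ : ℂ) * exp (I * (s : ℂ))))) (by
    show exp (half.val * log (E.ev σ2 ((E.r 20).add ((E.r 30).mul (E.sc zI (E.r 2)).exp)))) = _
    rw [hz, half_val])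
  refine ⟨_, h, hB.of_eq fun i hi => upd_ne (by omega) _, ?_, hs, upd_same _ _⟩
  rw [upd_ne (by omega), e3]

/-- **Chart E.** -/
theorem cE_spec {t : TD} {n : ℕ} {e κ s : ℝ} {x : ℂ} (he : 0 < e) {σ : ℕ → ℂ}
    {Q : (ℕ → ℂ) → Prop} {A : List St} (hI : INS t e κ s x σ)
    (h : Sem (cE t n ++ A) σ Q) : ∃ τ, Sem A τ Q ∧ BFS e κ τ ∧ τ 3 = x ∧
      (Bq t n e κ : ℂ) * exp (-I * (s : ℂ)) - (Kq e κ : ℂ) ^ 2 ∈ slitPlane ∧
      τ 5 = I * exp (1 / 2 * log ((Bq t n e κ : ℂ) * exp (-I * (s : ℂ)) - (Kq e κ : ℂ) ^ 2)) := by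
  unfold cE at h
  rw [List.append_assoc, List.append_assoc] at h
  have h := sem_append _ _ _ h
  obtain ⟨σ1, h, hB, k2, k3⟩ := basS_spec he hI.ep hI.b h
  have h := sem_append _ _ _ h
  obtain ⟨σ2, h, hB, k30, k⟩ := BS_spec hB h
  have e2 : σ2 2 = (s : ℂ) := by rw [k 2 (by omega), k2, hI.s]
  have e3 : σ2 3 = x := by rw [k 3 (by omega), k3, hI.x]
  have e20 : σ2 20 = (Kq e κ : ℂ) ^ 2 := by rw [hB.Ke2', sq]
  have hz : E.ev σ2 (((E.r 30).mul (E.sc zmI (E.r 2)).exp).sub (E.r 20)) =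
      (Bq t n e κ : ℂ) * exp (-I * (s : ℂ)) - (Kq e κ : ℂ) ^ 2 := by
    show σ2 30 * exp (zmI.val * σ2 2) - σ2 20 = _
    rw [e20, k30, e2, zmI_val]
  have hs : (Bq t n e κ : ℂ) * exp (-I * (s : ℂ)) - (Kq e κ : ℂ) ^ 2 ∈ slitPlane := by
    have := h.1.2
    rwa [hz] at this
  obtain ⟨-, h⟩ := sem_set h (x := I * exp (1 / 2 * log ((Bq t n e κ : ℂ) * exp (-I * (s : ℂ)) -
      (Kq e κ : ℂ) ^ 2))) (by
    show zI.val * exp (half.val * log (E.ev σ2 (((E.r 30).mul (E.sc zmI (E.r 2)).exp).sub (E.r 20)))) = _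
    rw [hz, half_val, zI_val])
  refine ⟨_, h, hB.of_eq fun i hi => upd_ne (by omega) _, ?_, hs, upd_same _ _⟩
  rw [upd_ne (by omega), e3]

/-- **Chart F.** -/
theorem cF_spec {t : TD} {n : ℕ} {e κ s : ℝ} {x : ℂ} (he : 0 < e) {σ : ℕ → ℂ}
    {Q : (ℕ → ℂ) → Prop} {A : List St} (hI : INS t e κ s x σ)
    (h : Sem (cF t n ++ A) σ Q) : ∃ τ, Sem A τ Q ∧ BFS e κ τ ∧ τ 3 = x ∧
      (Kq e κ : ℂ) ^ 2 - (Bq t n e κ : ℂ) * exp (-I * (s : ℂ)) ∈ slitPlane ∧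
      τ 5 = exp (1 / 2 * log ((Kq e κ : ℂ) ^ 2 - (Bq t n e κ : ℂ) * exp (-I * (s : ℂ)))) := by
  unfold cF at h
  rw [List.append_assoc, List.append_assoc] at h
  have h := sem_append _ _ _ h
  obtain ⟨σ1, h, hB, k2, k3⟩ := basS_spec he hI.ep hI.b h
  have h := sem_append _ _ _ h
  obtain ⟨σ2, h, hB, k30, k⟩ := BS_spec hB h
  have e2 : σ2 2 = (s : ℂ) := by rw [k 2 (by omega), k2, hI.s]
  have e3 : σ2 3 = x := by rw [k 3 (by omega), k3, hI.x]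
  have e20 : σ2 20 = (Kq e κ : ℂ) ^ 2 := by rw [hB.Ke2', sq]
  have hz : E.ev σ2 ((E.r 20).sub ((E.r 30).mul (E.sc zmI (E.r 2)).exp)) =
      (Kq e κ : ℂ) ^ 2 - (Bq t n e κ : ℂ) * exp (-I * (s : ℂ)) := by
    show σ2 20 - σ2 30 * exp (zmI.val * σ2 2) = _
    rw [e20, k30, e2, zmI_val]
  have hs : (Kq e κ : ℂ) ^ 2 - (Bq t n e κ : ℂ) * exp (-I * (s : ℂ)) ∈ slitPlane := by
    have := h.1.2
    rwa [hz] at this
  obtain ⟨-, h⟩ := sem_set h (x := exp (1 / 2 * log ((Kq e κ : ℂ) ^ 2 -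
      (Bq t n e κ : ℂ) * exp (-I * (s : ℂ))))) (by
    show exp (half.val * log (E.ev σ2 ((E.r 20).sub ((E.r 30).mul (E.sc zmI (E.r 2)).exp)))) = _
    rw [hz, half_val])
  refine ⟨_, h, hB.of_eq fun i hi => upd_ne (by omega) _, ?_, hs, upd_same _ _⟩
  rw [upd_ne (by omega), e3]

end Pool.Agent.helper4.NS
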